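import Mathlib

/-!
# Counting bit strings
-/

set_option autoImplicit false

namespace Pool.Agent.Helper643.DM

open Finset

open Classical in
/-- the number of the `k < 2 ^ s` with the property `P` -/
noncomputable def cnt (s : ℕ) (P : ℕ → Prop) : ℕ := ((range (2 ^ s)).filter P).card

theorem cnt_mono {s : ℕ} {P Q : ℕ → Prop} (h : ∀ k < 2 ^ s, P k → Q k) : cnt s P ≤ cnt s Q := by
  classical
  unfold cnt
  refine card_le_card fun k hk => ?_
  rw [mem_filter, mem_range] at hk ⊢
  exact ⟨hk.1, h k hk.1 hk.2⟩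

theorem cnt_congr {s : ℕ} {P Q : ℕ → Prop} (h : ∀ k < 2 ^ s, (P k ↔ Q k)) : cnt s P = cnt s Q :=
  le_antisymm (cnt_mono fun k hk => (h k hk).1) (cnt_mono fun k hk => (h k hk).2)

theorem cnt_le (s : ℕ) (P : ℕ → Prop) : cnt s P ≤ 2 ^ s := by
  classical
  unfold cnt
  exact (card_filter_le _ _).trans (by simp)

theorem cnt_or (s : ℕ) (P Q : ℕ → Prop) : cnt s (fun k => P k ∨ Q k) ≤ cnt s P + cnt s Q := by
  classical
  unfold cnt
  refine (card_le_card fun k hk => ?_).trans (card_union_le _ _)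
  simp only [mem_filter, mem_union] at hk ⊢
  tauto

theorem cnt_succ (s : ℕ) (P : ℕ → Prop) :
    cnt (s + 1) P = cnt s P + cnt s (fun k => P (2 ^ s + k)) := by
  classical
  unfold cnt
  simp only [card_filter]
  rw [pow_succ, mul_two, sum_range_add]

theorem cnt_mod {n s : ℕ} (h : n ≤ s) (P : ℕ → Prop) :
    cnt s (fun k => P (k % 2 ^ n)) = 2 ^ (s - n) * cnt n P := by
  induction s, h using Nat.le_induction with
  | base =>
    rw [Nat.sub_self, pow_zero, one_mul]
    exact cnt_congr fun k hk => by rw [Nat.mod_eq_of_lt hk]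
  | succ s hs ih =>
    rw [cnt_succ, ih, show s + 1 - n = (s - n) + 1 by omega, pow_succ]
    have h1 : cnt s (fun k => P ((2 ^ s + k) % 2 ^ n)) = cnt s (fun k => P (k % 2 ^ n)) := by
      refine cnt_congr fun k _ => ?_
      have h2 : 2 ^ n ∣ 2 ^ s := pow_dvd_pow 2 hs
      obtain ⟨c, hc⟩ := h2
      rw [hc, Nat.mul_add_mod]
    rw [h1, ih]
    ring

theorem cnt_div (b q : ℕ) (P : ℕ → Prop) :
    cnt (b + q) (fun k => P (k / 2 ^ b)) = 2 ^ b * cnt q P := by
  classical
  have key : ∀ N : ℕ, ((range (2 ^ b * N)).filter fun k => P (k / 2 ^ b)).card =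
      2 ^ b * ((range N).filter P).card := by
    intro N
    simp only [card_filter]
    induction N with
    | zero => simp
    | succ N ih =>
      rw [Nat.mul_succ, sum_range_add, ih, sum_range_succ, mul_add]
      congr 1
      have h1 : ∀ k ∈ range (2 ^ b), (if P ((2 ^ b * N + k) / 2 ^ b) then 1 else 0 : ℕ) =
          if P N then 1 else 0 := by
        intro k hk
        rw [mem_range] at hk
        rw [Nat.mul_add_div (by positivity), Nat.div_eq_of_lt hk, add_zero]
      rw [sum_congr rfl h1]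
      simp
  unfold cnt
  rw [pow_add]
  exact key _

/-- the number of disagreements -/
def dis (L : ℕ) (f g : ℕ → Bool) : ℕ := ((range L).filter fun i => f i ≠ g i).card

theorem dis_comm (L : ℕ) (f g : ℕ → Bool) : dis L f g = dis L g f := by
  unfold dis
  congr 1
  ext i
  simp [ne_comm]

theorem dis_congr {L : ℕ} {f f' g g' : ℕ → Bool} (hf : ∀ i < L, f i = f' i)
    (hg : ∀ i < L, g i = g' i) : dis L f g = dis L f' g' := by
  unfold dis
  congr 1
  ext i
  simp only [mem_filter, mem_range]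
  constructor
  · rintro ⟨h, h'⟩
    exact ⟨h, by rwa [← hf i h, ← hg i h]⟩
  · rintro ⟨h, h'⟩
    exact ⟨h, by rwa [hf i h, hg i h]⟩

theorem dis_le (L : ℕ) (f g : ℕ → Bool) : dis L f g ≤ L := by
  unfold dis
  exact (card_filter_le _ _).trans (by simp)

theorem dis_succ (L : ℕ) (f g : ℕ → Bool) :
    dis (L + 1) f g = dis L f g + if f L ≠ g L then 1 else 0 := by
  unfold dis
  rw [range_add_one, filter_insert]
  split_ifs with h
  · rw [card_insert_of_notMem (by simp)]
  · simp

theorem cheb (L : ℕ) (f : ℕ → Bool) :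
    ∑ k ∈ range (2 ^ L), ((2 * dis L f k.testBit : ℤ) - L) ^ 2 = L * 2 ^ L := by
  induction L with
  | zero => simp [dis]
  | succ L ih =>
    rw [pow_succ 2 L, mul_two, sum_range_add, ← sum_add_distrib]
    have h1 : ∀ k ∈ range (2 ^ L),
        ((2 * dis (L + 1) f k.testBit : ℤ) - (L + 1 : ℕ)) ^ 2 +
        ((2 * dis (L + 1) f (2 ^ L + k).testBit : ℤ) - (L + 1 : ℕ)) ^ 2 =
        2 * ((2 * dis L f k.testBit : ℤ) - L) ^ 2 + 2 := by
      intro k hk
      rw [mem_range] at hk
      have h2 : k.testBit L = false := Nat.testBit_lt_two_pow hk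
      have h3 : (2 ^ L + k).testBit L = true := by
        rw [Nat.testBit_two_pow_add_eq, h2]; rfl
      have h4 : dis L f (2 ^ L + k).testBit = dis L f k.testBit :=
        dis_congr (fun _ _ => rfl) fun i hi => Nat.testBit_two_pow_add_gt hi k
      rw [dis_succ, dis_succ, h4, h2, h3]
      cases f L <;> simp <;> ring
    rw [sum_congr rfl h1, sum_add_distrib, ← mul_sum, ih]
    simp only [sum_const, card_range]
    push_cast
    rw [pow_succ]
    simp
    ring

/-- the block number `m` is bad: too many disagreements -/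
def bad (m : ℕ) (f g : ℕ → Bool) : Prop := m ^ 4 + m ^ 3 ≤ 2 * dis (m ^ 4) f g

theorem bad_congr {m : ℕ} {f f' g g' : ℕ → Bool} (hf : ∀ i < m ^ 4, f i = f' i)
    (hg : ∀ i < m ^ 4, g i = g' i) : bad m f g ↔ bad m f' g' := by
  unfold bad
  rw [dis_congr hf hg]

theorem bad_count (m : ℕ) (f : ℕ → Bool) :
    cnt (m ^ 4) (fun k => bad m f k.testBit) * m ^ 2 ≤ 2 ^ (m ^ 4) := by
  classical
  rcases Nat.eq_zero_or_pos m with rfl | hm
  · simp
  have h1 : (cnt (m ^ 4) (fun k => bad m f k.testBit) : ℤ) * (m ^ 3) ^ 2 ≤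
      ((m ^ 4 : ℕ) : ℤ) * 2 ^ (m ^ 4) := by
    rw [← cheb (m ^ 4) f]
    unfold cnt
    rw [card_filter]
    push_cast
    rw [sum_mul]
    refine sum_le_sum fun k _ => ?_
    split_ifs with h
    · rw [one_mul]
      unfold bad at h
      have h2 : ((m : ℤ) ^ 4 + m ^ 3) ≤ 2 * dis (m ^ 4) f k.testBit := by exact_mod_cast h
      have h3 : (0 : ℤ) ≤ (m : ℤ) ^ 3 := by positivity
      nlinarith
    · rw [zero_mul]; positivity
  have h2 : (cnt (m ^ 4) (fun k => bad m f k.testBit)) * (m ^ 3) ^ 2 ≤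
      (m ^ 4) * 2 ^ (m ^ 4) := by exact_mod_cast h1
  have h3 : 0 < m ^ 4 := by positivity
  refine Nat.le_of_mul_le_mul_left ?_ h3
  calc m ^ 4 * (cnt (m ^ 4) (fun k => bad m f k.testBit) * m ^ 2) =
      (cnt (m ^ 4) (fun k => bad m f k.testBit)) * (m ^ 3) ^ 2 := by ring
    _ ≤ _ := h2

/-- the ends of the blocks -/
def bb (m : ℕ) : ℕ := ∑ i ∈ range m, i ^ 4

theorem bb_succ (m : ℕ) : bb (m + 1) = bb m + m ^ 4 := by
  unfold bb
  rw [sum_range_succ]

theorem bb_mono {m n : ℕ} (h : m ≤ n) : bb m ≤ bb n := by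
  induction n, h using Nat.le_induction with
  | base => exact le_rfl
  | succ n _ ih => rw [bb_succ]; omega

theorem block_count {m s : ℕ} (h : bb (m + 1) ≤ s) (f : ℕ → Bool) :
    cnt s (fun k => bad m f fun i => k.testBit (bb m + i)) * m ^ 2 ≤ 2 ^ s := by
  rw [bb_succ] at h
  obtain ⟨r, rfl⟩ := Nat.exists_eq_add_of_le h
  have h1 : cnt (bb m + m ^ 4 + r) (fun k => bad m f fun i => k.testBit (bb m + i)) =
      cnt (bb m + (m ^ 4 + r)) (fun k => (fun q => bad m f (q % 2 ^ (m ^ 4)).testBit)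
        (k / 2 ^ (bb m))) := by
    rw [add_assoc]
    refine cnt_congr fun k _ => bad_congr (fun _ _ => rfl) fun i hi => ?_
    rw [Nat.testBit_mod_two_pow, Nat.testBit_div_two_pow, add_comm i]
    simp [hi]
  rw [h1, cnt_div (bb m) (m ^ 4 + r) (fun q => bad m f (q % 2 ^ (m ^ 4)).testBit),
    cnt_mod (by omega) (fun q => bad m f q.testBit)]
  have h2 := bad_count m f
  rw [show m ^ 4 + r - m ^ 4 = r by omega]
  calc 2 ^ bb m * (2 ^ r * cnt (m ^ 4) fun q => bad m f q.testBit) * m ^ 2 =
      2 ^ bb m * 2 ^ r * ((cnt (m ^ 4) fun q => bad m f q.testBit) * m ^ 2) := by ring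
    _ ≤ 2 ^ bb m * 2 ^ r * 2 ^ (m ^ 4) := Nat.mul_le_mul_left _ h2
    _ = 2 ^ (bb m + m ^ 4 + r) := by rw [pow_add, pow_add]; ring

/-! ### initial segments of sequences -/

/-- the first `l` bits of `x` as a number -/
def pre (x : ℕ → Bool) : ℕ → ℕ
  | 0 => 0
  | l + 1 => pre x l + if x l then 2 ^ l else 0

theorem pre_lt (x : ℕ → Bool) (l : ℕ) : pre x l < 2 ^ l := by
  induction l with
  | zero => simp [pre]
  | succ l ih =>
    rw [pre, pow_succ]
    split_ifs <;> omega

theorem pre_testBit (x : ℕ → Bool) (l i : ℕ) : (pre x l).testBit i = (decide (i < l) && x i) := by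
  induction l with
  | zero => simp [pre]
  | succ l ih =>
    rw [pre]
    have h1 := pre_lt x l
    by_cases hx : x l = true
    · rw [if_pos hx, add_comm]
      rcases lt_trichotomy i l with h | rfl | h
      · rw [Nat.testBit_two_pow_add_gt h, ih]
        simp [h, Nat.lt_succ_of_lt h]
      · rw [Nat.testBit_two_pow_add_eq, Nat.testBit_lt_two_pow h1]
        simp [hx]
      · have h2 : 2 ^ l + pre x l < 2 ^ i := by
          calc 2 ^ l + pre x l < 2 ^ (l + 1) := by rw [pow_succ]; omega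
            _ ≤ 2 ^ i := Nat.pow_le_pow_right (by norm_num) h
        rw [Nat.testBit_lt_two_pow h2]
        have : ¬ i < l + 1 := by omega
        simp [this]
    · rw [if_neg hx, add_zero, ih]
      rcases lt_trichotomy i l with h | rfl | h
      · simp [h, Nat.lt_succ_of_lt h]
      · simp [hx]
      · have : ¬ i < l + 1 := by omega
        have h' : ¬ i < l := by omega
        simp [this, h']

theorem pre_mod (x : ℕ → Bool) {l s : ℕ} (h : l ≤ s) : pre x s % 2 ^ l = pre x l := by
  apply Nat.eq_of_testBit_eq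
  intro i
  rw [Nat.testBit_mod_two_pow, pre_testBit, pre_testBit]
  by_cases hi : i < l
  · have : i < s := by omega
    simp [hi, this]
  · simp [hi]

end Pool.Agent.Helper643.DM
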