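import Pool.Agent.helper643_DM.Rect

/-!
# The combinatorial core
-/

set_option autoImplicit false

namespace Pool.Agent.Helper643.DM

open Finset

/-! ### unions and averages -/

theorem sum_sq_bound {M n C : ℕ} (hM : 0 < M) {F : ℕ → ℕ} (h : ∀ m ≥ M, m ^ 2 * F m ≤ C) :
    M * ∑ m ∈ Ico M n, F m ≤ 2 * C := by
  have h1 : ∑ m ∈ Ico M n, (F m : ℝ) ≤ C * (2 / M) := by
    have h2 := sum_Ioo_inv_sq_le (α := ℝ) (M - 1) n
    have h3 : Ioo (M - 1) n = Ico M n := by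
      ext i; simp only [mem_Ioo, mem_Ico]; omega
    have h4 : ((M - 1 : ℕ) : ℝ) + 1 = M := by
      have : M - 1 + 1 = M := by omega
      exact_mod_cast this
    rw [h3, h4] at h2
    calc ∑ m ∈ Ico M n, (F m : ℝ) ≤ ∑ m ∈ Ico M n, C * ((m : ℝ) ^ 2)⁻¹ := by
          refine sum_le_sum fun m hm => ?_
          rw [mem_Ico] at hm
          have h5 : (0 : ℝ) < m := by
            have : 0 < m := by omega
            exact_mod_cast this
          have h6 : ((m : ℝ) ^ 2) * F m ≤ C := by exact_mod_cast h m hm.1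
          rw [← div_eq_mul_inv, le_div_iff₀ (by positivity)]
          linarith
      _ = C * ∑ m ∈ Ico M n, ((m : ℝ) ^ 2)⁻¹ := by rw [mul_sum]
      _ ≤ C * (2 / M) := mul_le_mul_of_nonneg_left h2 (Nat.cast_nonneg _)
  have h2 : (0 : ℝ) < M := by exact_mod_cast hM
  have h3 : (M : ℝ) * ∑ m ∈ Ico M n, (F m : ℝ) ≤ 2 * C := by
    calc (M : ℝ) * ∑ m ∈ Ico M n, (F m : ℝ) ≤ M * (C * (2 / M)) :=
          mul_le_mul_of_nonneg_left h1 h2.le
      _ = 2 * C := by field_simp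
  exact_mod_cast h3

theorem cnt_exists (s : ℕ) (T : Finset ℕ) (B : ℕ → ℕ → Prop) :
    cnt s (fun j => ∃ m ∈ T, B m j) ≤ ∑ m ∈ T, cnt s (B m) := by
  classical
  unfold cnt
  refine (card_le_card ?_).trans card_biUnion_le
  intro j hj
  simp only [mem_filter, mem_biUnion] at hj ⊢
  obtain ⟨h1, m, h2, h3⟩ := hj
  exact ⟨m, h2, h1, h3⟩

theorem cnt_union {M C : ℕ} (hM : 0 < M) (s n : ℕ) {B : ℕ → ℕ → Prop}
    (h : ∀ m ≥ M, m ^ 2 * cnt s (B m) ≤ C) :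
    M * cnt s (fun j => ∃ m, M ≤ m ∧ m < n ∧ B m j) ≤ 2 * C := by
  refine le_trans (Nat.mul_le_mul_left _ ?_) (sum_sq_bound (n := n) hM h)
  refine le_trans (cnt_mono fun j _ => ?_) (cnt_exists s (Ico M n) B)
  rintro ⟨m, h1, h2, h3⟩
  exact ⟨m, mem_Ico.2 ⟨h1, h2⟩, h3⟩

/-- averaging over the block -/
theorem avg (m s : ℕ) (f : ℕ → ℕ → Bool) :
    ∃ z : ℕ, m ^ 2 * cnt s (fun j => bad m (f j) z.testBit) ≤ 2 ^ s := by
  classical
  by_contra hcon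
  push Not at hcon
  have h1 : ∑ z ∈ range (2 ^ (m ^ 4)), 2 ^ s <
      ∑ z ∈ range (2 ^ (m ^ 4)), m ^ 2 * cnt s (fun j => bad m (f j) z.testBit) :=
    sum_lt_sum_of_nonempty ⟨0, mem_range.2 (by positivity)⟩ fun z _ => hcon z
  have h2 : ∑ z ∈ range (2 ^ (m ^ 4)), m ^ 2 * cnt s (fun j => bad m (f j) z.testBit) =
      ∑ j ∈ range (2 ^ s), cnt (m ^ 4) (fun z => bad m (f j) z.testBit) * m ^ 2 := by
    simp only [cnt_eq_sum]
    rw [← mul_sum, sum_comm, ← sum_mul, mul_comm]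
  rw [h2] at h1
  have h3 : ∑ j ∈ range (2 ^ s), cnt (m ^ 4) (fun z => bad m (f j) z.testBit) * m ^ 2 ≤
      ∑ j ∈ range (2 ^ s), 2 ^ (m ^ 4) := sum_le_sum fun j _ => bad_count m (f j)
  simp only [sum_const, card_range, smul_eq_mul] at h1 h3
  rw [mul_comm] at h3
  omega

/-! ### the core -/

variable (P Q : ℕ → ℕ → Prop) (u : ℕ → ℕ → ℕ → Prop) (N a b : ℕ)

/-- for more than half of the extensions of `b` the pair is in `u` -/
def gg (s j : ℕ) : Prop := N ≤ s ∧ 2 ^ (s - N) < 2 * cnt s (fun k => k % 2 ^ N = b ∧ UU u s j k)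

/-- the refined tree -/
def P1 (l j : ℕ) : Prop := P l j ∧ (N ≤ l → j % 2 ^ N = a) ∧ ¬ gg u N b l j

variable {P Q u N a b}

theorem cnt_fiber {s : ℕ} (hN : N ≤ s) (hb : b < 2 ^ N) :
    cnt s (fun k => k % 2 ^ N = b) = 2 ^ (s - N) := by
  classical
  rw [cnt_mod hN (fun k => k = b)]
  have h1 : cnt N (fun k => k = b) = 1 := by
    rw [cnt_eq_sum]
    rw [sum_eq_single_of_mem b (mem_range.2 hb) fun c _ hc => by simp [hc]]
    simp
  rw [h1, mul_one]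

theorem gg_mono {l s j : ℕ} (h : l ≤ s) (hg : gg u N b l (j % 2 ^ l)) : gg u N b s j := by
  obtain ⟨h1, h2⟩ := hg
  refine ⟨h1.trans h, ?_⟩
  have h3 : 2 ^ (s - l) * cnt l (fun k => k % 2 ^ N = b ∧ UU u l (j % 2 ^ l) k) ≤
      cnt s (fun k => k % 2 ^ N = b ∧ UU u s j k) := by
    rw [← cnt_mod h (fun k => k % 2 ^ N = b ∧ UU u l (j % 2 ^ l) k)]
    refine cnt_mono fun k _ hk => ?_
    rw [mod_mod h1] at hk
    exact ⟨hk.1, hk.2.mono h⟩
  have h4 : 2 ^ (s - N) = 2 ^ (s - l) * 2 ^ (l - N) := by rw [← pow_add]; congr 1; omega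
  rw [h4]
  calc 2 ^ (s - l) * 2 ^ (l - N) <
      2 ^ (s - l) * (2 * cnt l (fun k => k % 2 ^ N = b ∧ UU u l (j % 2 ^ l) k)) :=
        Nat.mul_lt_mul_of_pos_left h2 (by positivity)
    _ = 2 * (2 ^ (s - l) * cnt l (fun k => k % 2 ^ N = b ∧ UU u l (j % 2 ^ l) k)) := by ring
    _ ≤ _ := Nat.mul_le_mul_left _ h3

theorem cyl_P1 {s j : ℕ} (hN : N ≤ s) (hj : j < 2 ^ s) :
    Cyl (P1 P u N a b) s j ↔ Cyl P s j ∧ j % 2 ^ N = a ∧ ¬ gg u N b s j := by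
  constructor
  · intro h
    have h1 := h s le_rfl
    rw [Nat.mod_eq_of_lt hj] at h1
    exact ⟨fun l hl => (h l hl).1, h1.2.1 hN, h1.2.2⟩
  · rintro ⟨h1, h2, h3⟩ l hl
    exact ⟨h1 l hl, fun h4 => by rw [mod_mod h4]; exact h2, fun h4 => h3 (gg_mono hl h4)⟩

theorem pc_rect {s : ℕ} (hN : N ≤ s) (ha : a < 2 ^ N) (hb : b < 2 ^ N) :
    pc s (fun j k => j % 2 ^ N = a ∧ k % 2 ^ N = b) = 2 ^ (s - N) * 2 ^ (s - N) := by
  rw [pc_prod, cnt_fiber hN ha, cnt_fiber hN hb]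

theorem four_pow (n : ℕ) : (4 : ℕ) ^ n = 2 ^ n * 2 ^ n := by
  rw [show (4 : ℕ) = 2 * 2 by rfl, mul_pow]

/-- the density of the rectangle -/
def Dense (P Q : ℕ → ℕ → Prop) (u : ℕ → ℕ → ℕ → Prop) (N a b : ℕ) : Prop :=
  ∀ s ≥ N, 7 * 4 ^ (s - N) ≤ 8 * pc s (fun j k => j % 2 ^ N = a ∧ k % 2 ^ N = b ∧ EE P Q u s j k)

theorem pc_uu {s : ℕ} (hd : Dense P Q u N a b) (hN : N ≤ s) (ha : a < 2 ^ N) (hb : b < 2 ^ N) :
    8 * pc s (fun j k => j % 2 ^ N = a ∧ k % 2 ^ N = b ∧ UU u s j k) ≤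
      2 ^ (s - N) * 2 ^ (s - N) := by
  have h1 := hd s hN
  have h2 : pc s (fun j k => j % 2 ^ N = a ∧ k % 2 ^ N = b ∧ EE P Q u s j k) +
      pc s (fun j k => j % 2 ^ N = a ∧ k % 2 ^ N = b ∧ UU u s j k) ≤
      pc s (fun j k => j % 2 ^ N = a ∧ k % 2 ^ N = b) := by
    classical
    unfold pc
    rw [← sum_add_distrib]
    refine sum_le_sum fun j _ => ?_
    simp only [cnt_eq_sum]
    rw [← sum_add_distrib]
    refine sum_le_sum fun k _ => ?_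
    by_cases h3 : j % 2 ^ N = a ∧ k % 2 ^ N = b
    · by_cases h4 : UU u s j k
      · simp [h3, h4, EE]
      · simp only [h3, h4, and_false, if_false, add_zero, true_and, if_true]
        split_ifs <;> simp
    · have h5 : ¬ (j % 2 ^ N = a ∧ k % 2 ^ N = b ∧ EE P Q u s j k) := fun h => h3 ⟨h.1, h.2.1⟩
      have h6 : ¬ (j % 2 ^ N = a ∧ k % 2 ^ N = b ∧ UU u s j k) := fun h => h3 ⟨h.1, h.2.1⟩
      rw [if_neg h5, if_neg h6]
      simp
  rw [pc_rect hN ha hb] at h2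
  rw [four_pow] at h1
  omega

/-- only a quarter of the extensions of `a` is removed -/
theorem gg_count {s : ℕ} (hd : Dense P Q u N a b) (hN : N ≤ s) (ha : a < 2 ^ N) (hb : b < 2 ^ N) :
    4 * cnt s (fun j => j % 2 ^ N = a ∧ gg u N b s j) ≤ 2 ^ (s - N) := by
  classical
  have h1 := pc_uu hd hN ha hb
  have h2 : cnt s (fun j => j % 2 ^ N = a ∧ gg u N b s j) * 2 ^ (s - N) ≤
      2 * pc s (fun j k => j % 2 ^ N = a ∧ k % 2 ^ N = b ∧ UU u s j k) := by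
    unfold pc
    rw [cnt_eq_sum, sum_mul, mul_sum]
    refine sum_le_sum fun j _ => ?_
    by_cases h3 : j % 2 ^ N = a ∧ gg u N b s j
    · rw [if_pos h3, one_mul]
      have h4 : cnt s (fun k => j % 2 ^ N = a ∧ k % 2 ^ N = b ∧ UU u s j k) =
          cnt s (fun k => k % 2 ^ N = b ∧ UU u s j k) := by
        refine cnt_congr fun k _ => ?_
        simp [h3.1]
      rw [h4]
      exact h3.2.2.le
    · rw [if_neg h3]; simp
  have h3 : 4 * cnt s (fun j => j % 2 ^ N = a ∧ gg u N b s j) * 2 ^ (s - N) ≤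
      2 ^ (s - N) * 2 ^ (s - N) := by
    calc 4 * cnt s (fun j => j % 2 ^ N = a ∧ gg u N b s j) * 2 ^ (s - N) =
        4 * (cnt s (fun j => j % 2 ^ N = a ∧ gg u N b s j) * 2 ^ (s - N)) := by ring
      _ ≤ 4 * (2 * pc s (fun j k => j % 2 ^ N = a ∧ k % 2 ^ N = b ∧ UU u s j k)) :=
          Nat.mul_le_mul_left _ h2
      _ = 8 * pc s (fun j k => j % 2 ^ N = a ∧ k % 2 ^ N = b ∧ UU u s j k) := by ring
      _ ≤ _ := h1
  exact Nat.le_of_mul_le_mul_right h3 (by positivity)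

/-- positivity is preserved if not much is removed -/
theorem pos_of_loss (hd : Dense P Q u N a b) (ha : a < 2 ^ N) (hb : b < 2 ^ N)
    {P' : ℕ → ℕ → Prop} (hP' : ∀ s ≥ N,
      2 ^ (N + 1) * cnt s (fun j => Cyl (P1 P u N a b) s j ∧ ¬ Cyl P' s j) ≤ 2 ^ s) :
    Pos P' Q u := by
  refine ⟨N + 8 * 4 ^ N, fun s hs => ?_⟩
  have hN : N ≤ s := by
    have : 0 < 8 * 4 ^ N := by positivity
    omega
  have h1 := hd s hN
  have h2 := gg_count hd hN ha hb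
  have h3 := hP' s hN
  set D := 2 ^ (s - N) with hD
  have hDs : 2 ^ s = 2 ^ N * D := by rw [hD, ← pow_add]; congr 1; omega
  have h4 : pc s (fun j k => j % 2 ^ N = a ∧ k % 2 ^ N = b ∧ EE P Q u s j k) ≤
      pc s (EE P' Q u s) + (pc s (fun j k => (j % 2 ^ N = a ∧ gg u N b s j) ∧ k % 2 ^ N = b) +
      pc s (fun j k => (Cyl (P1 P u N a b) s j ∧ ¬ Cyl P' s j) ∧ k % 2 ^ N = b)) := by
    refine le_trans ?_ ((pc_or s _ _).trans (Nat.add_le_add_left (pc_or s _ _) _))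
    refine pc_mono fun j hj k _ => ?_
    rintro ⟨h5, h6, h7⟩
    by_cases h8 : gg u N b s j
    · exact Or.inr (Or.inl ⟨⟨h5, h8⟩, h6⟩)
    · by_cases h9 : Cyl P' s j
      · exact Or.inl ⟨h9, h7.2⟩
      · exact Or.inr (Or.inr ⟨⟨(cyl_P1 hN hj).2 ⟨h7.1, h5, h8⟩, h9⟩, h6⟩)
  rw [pc_prod, pc_prod, cnt_fiber hN hb, ← hD] at h4
  set G := cnt s (fun j => j % 2 ^ N = a ∧ gg u N b s j)
  set L := cnt s (fun j => Cyl (P1 P u N a b) s j ∧ ¬ Cyl P' s j)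
  set E := pc s (EE P' Q u s)
  have h5 : 2 * L ≤ D := by
    have h6 : 2 ^ N * (2 * L) ≤ 2 ^ N * D := by
      rw [← hDs]
      calc 2 ^ N * (2 * L) = 2 ^ (N + 1) * L := by rw [pow_succ]; ring
        _ ≤ _ := h3
    exact Nat.le_of_mul_le_mul_left h6 (by positivity)
  rw [four_pow, ← hD] at h1
  have h6 : D * D ≤ 8 * E := by nlinarith
  calc 4 ^ s = 4 ^ N * (D * D) := by
        rw [hD, ← four_pow, ← pow_add]; congr 1; omega
    _ ≤ 4 ^ N * (8 * E) := Nat.mul_le_mul_left _ h6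
    _ = 8 * 4 ^ N * E := by ring
    _ ≤ (N + 8 * 4 ^ N) * E := Nat.mul_le_mul_right _ (by omega)

/-- outside of `gg` there are few strings on which the functional does not converge -/
theorem few (hd : Dense P Q u N a b) (ha : a < 2 ^ N) {T : ℕ → ℕ → Prop}
    (hT : ∀ l s j, l ≤ s → T l (j % 2 ^ l) → T s j)
    (hn : ¬ Pos (fun l j => P l j ∧ ¬ T l j) Q u) (δ : ℕ) :
    ∃ s ≥ δ, N ≤ s ∧ δ * cnt s (fun j => Cyl (P1 P u N a b) s j ∧ ¬ T s j) ≤ 2 ^ s := by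
  classical
  unfold Pos at hn
  push Not at hn
  obtain ⟨s, hs, hs'⟩ := hn (N + δ + δ * 8 * 2 ^ N)
  have hN : N ≤ s := by omega
  refine ⟨s, by omega, hN, ?_⟩
  have h1 := hd s hN
  set D := 2 ^ (s - N) with hD
  have hDs : 2 ^ s = 2 ^ N * D := by rw [hD, ← pow_add]; congr 1; omega
  -- the density of `Q` above `b`
  have h2 : 7 * D ≤ 8 * cnt s (fun k => k % 2 ^ N = b ∧ Cyl Q s k) := by
    have h3 : pc s (fun j k => j % 2 ^ N = a ∧ k % 2 ^ N = b ∧ EE P Q u s j k) ≤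
        D * cnt s (fun k => k % 2 ^ N = b ∧ Cyl Q s k) := by
      rw [hD, ← cnt_fiber hN ha, ← pc_prod]
      exact pc_mono fun j _ k _ h => ⟨h.1, h.2.1, h.2.2.2.1⟩
    rw [four_pow, ← hD] at h1
    have h4 : D * (7 * D) ≤ D * (8 * cnt s (fun k => k % 2 ^ N = b ∧ Cyl Q s k)) := by nlinarith
    exact Nat.le_of_mul_le_mul_left h4 (by positivity)
  -- the pairs
  have h3 : cnt s (fun j => Cyl (P1 P u N a b) s j ∧ ¬ T s j) * (3 * D) ≤
      8 * pc s (EE (fun l j => P l j ∧ ¬ T l j) Q u s) := by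
    unfold pc
    rw [cnt_eq_sum, sum_mul, mul_sum]
    refine sum_le_sum fun j hj => ?_
    rw [mem_range] at hj
    by_cases h4 : Cyl (P1 P u N a b) s j ∧ ¬ T s j
    · rw [if_pos h4, one_mul]
      obtain ⟨h5, h6⟩ := h4
      rw [cyl_P1 hN hj] at h5
      obtain ⟨h7, _, h8⟩ := h5
      have h9 : cnt s (fun k => k % 2 ^ N = b ∧ Cyl Q s k) ≤
          cnt s (EE (fun l j => P l j ∧ ¬ T l j) Q u s j) +
          cnt s (fun k => k % 2 ^ N = b ∧ UU u s j k) := by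
        refine le_trans (cnt_mono fun k _ hk => ?_) (cnt_or s _ _)
        by_cases h10 : UU u s j k
        · exact Or.inr ⟨hk.1, h10⟩
        · exact Or.inl ⟨fun l hl => ⟨h7 l hl, fun h => h6 (hT l s j hl h)⟩, hk.2, h10⟩
      have h10 : 2 * cnt s (fun k => k % 2 ^ N = b ∧ UU u s j k) ≤ D := by
        by_contra hcon
        exact h8 ⟨hN, by omega⟩
      omega
    · rw [if_neg h4]; simp
  have h4 : 0 < D := by positivity
  have h5 : (N + δ + δ * 8 * 2 ^ N) * pc s (EE (fun l j => P l j ∧ ¬ T l j) Q u s) < 4 ^ s := hs'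
  have h6 : 4 ^ s = 2 ^ s * (2 ^ N * D) := by rw [four_pow, ← hDs]
  set J := cnt s (fun j => Cyl (P1 P u N a b) s j ∧ ¬ T s j)
  set E := pc s (EE (fun l j => P l j ∧ ¬ T l j) Q u s)
  have h7 : 8 * 2 ^ N * D * (δ * J) ≤ 8 * 2 ^ N * D * 2 ^ s := by
    calc 8 * 2 ^ N * D * (δ * J) = δ * 8 * 2 ^ N * (J * D) := by ring
      _ ≤ δ * 8 * 2 ^ N * (J * (3 * D)) :=
          Nat.mul_le_mul_left _ (Nat.mul_le_mul_left _ (by omega))
      _ ≤ δ * 8 * 2 ^ N * (8 * E) := Nat.mul_le_mul_left _ h3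
      _ = 8 * (δ * 8 * 2 ^ N * E) := by ring
      _ ≤ 8 * ((N + δ + δ * 8 * 2 ^ N) * E) :=
          Nat.mul_le_mul_left _ (Nat.mul_le_mul_right _ (by omega))
      _ ≤ 8 * (2 ^ s * (2 ^ N * D)) := by rw [← h6]; exact Nat.mul_le_mul_left _ h5.le
      _ = 8 * 2 ^ N * D * 2 ^ s := by ring
  exact Nat.le_of_mul_le_mul_left h7 (by positivity)

end Pool.Agent.Helper643.DM
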