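import Pool.Agent.H454R3.Att.Mod
import Pool.Agent.helper643_DM.Comb

/-!
# Decidability relative to a set, with counting
-/

set_option autoImplicit false

namespace Pool.Agent.Helper643.DM

open Encodable Pool.Agent.Helper578.JD Pool.Agent.Helper578.JD.Oracle
open Pool.Agent.H454R3.Att (FunIn unif)

section comp

variable {α : Type} [Primcodable α]

@[fun_prop] theorem cdiv {f g : α → ℕ} (hf : Computable f) (hg : Computable g) :
    Computable (fun x => f x / g x) := Primrec.nat_div.to_comp.comp hf hg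

@[fun_prop] theorem cmod {f g : α → ℕ} (hf : Computable f) (hg : Computable g) :
    Computable (fun x => f x % g x) := Primrec.nat_mod.to_comp.comp hf hg

theorem cpow2' : Computable fun n : ℕ => 2 ^ n := by
  have h1 : Computable fun x : ℕ × (ℕ × ℕ) => x.2.2 * 2 := by fun_prop
  refine (Computable.nat_rec (f := fun p : ℕ => p) (g := fun _ => 1)
    (h := fun _ q => q.2 * 2) (by fun_prop) (by fun_prop) h1).of_eq fun p => ?_
  induction p with
  | zero => rfl
  | succ p ih => rw [pow_succ, ← ih]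

@[fun_prop] theorem cpow2 {f : α → ℕ} (hf : Computable f) : Computable (fun x => 2 ^ f x) :=
  cpow2'.comp hf

theorem csq {f : α → ℕ} (hf : Computable f) : Computable (fun x => f x ^ 2) := by
  refine (Computable.of_eq (f := fun x => f x * f x) (by fun_prop) fun x => ?_)
  ring

theorem cfour {f : α → ℕ} (hf : Computable f) : Computable (fun x => f x ^ 4) := by
  refine (Computable.of_eq (f := fun x => f x * f x * (f x * f x)) (by fun_prop) fun x => ?_)
  ring

theorem cthree {f : α → ℕ} (hf : Computable f) : Computable (fun x => f x ^ 3) := by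
  refine (Computable.of_eq (f := fun x => f x * f x * f x) (by fun_prop) fun x => ?_)
  ring

theorem cmp1 {m v s : α → ℕ} (hm : Computable m) (hv : Computable v) (hs : Computable s) :
    ComputablePred fun a => m a ^ 2 * v a ≤ 2 * 2 ^ s a :=
  RE.cp_le (RE.cmul (csq hm) hv) (RE.cmul (by fun_prop) (cpow2 hs))

theorem cmp2 {m v : α → ℕ} (hm : Computable m) (hv : Computable v) :
    ComputablePred fun a => m a ^ 4 + m a ^ 3 ≤ 2 * v a :=
  RE.cp_le (RE.cadd (cfour hm) (cthree hm)) (RE.cmul (by fun_prop) hv)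

theorem cpdec {f : α → Bool} (hf : Computable f) : ComputablePred fun a => f a = true :=
  RE.cp_eq hf (by fun_prop)

theorem ctestBit {f g : α → ℕ} (hf : Computable f) (hg : Computable g) :
    Computable (fun x => (f x).testBit (g x)) := by
  have h1 : ComputablePred fun x => f x / 2 ^ g x % 2 = 1 :=
    RE.cp_eq (f := fun x => f x / 2 ^ g x % 2) (g := fun _ => 1) (by fun_prop) (by fun_prop)
  refine (RE.cdecide h1).of_eq fun x => ?_
  rw [Nat.testBit_eq_decide_div_mod_eq]

attribute [fun_prop] ctestBit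

theorem bb_comp : Computable bb := by
  have h0 : ∀ p : ℕ, (Nat.rec 0 (fun q r => r + q * q * (q * q)) p : ℕ) = bb p := by
    intro p
    induction p with
    | zero => simp [bb]
    | succ p ih =>
      rw [bb_succ, show p ^ 4 = p * p * (p * p) by ring]
      exact congrArg (· + p * p * (p * p)) ih
  have h1 : Computable fun x : ℕ × (ℕ × ℕ) => x.2.2 + x.2.1 * x.2.1 * (x.2.1 * x.2.1) := by
    fun_prop
  exact (Computable.nat_rec (f := fun p : ℕ => p) (g := fun _ => 0)
    (h := fun (_ : ℕ) (q : ℕ × ℕ) => q.2 + q.1 * q.1 * (q.1 * q.1)) (by fun_prop) (by fun_prop)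
    h1).of_eq h0

@[fun_prop] theorem cbb {f : α → ℕ} (hf : Computable f) : Computable (fun x => bb (f x)) :=
  bb_comp.comp hf

open Classical in
/-- the number of the ones among the first `n` bits -/
noncomputable def ones (n t : ℕ) : ℕ := ((Finset.range n).filter fun i => t.testBit i = true).card

theorem ones_comp : Computable fun p : ℕ × ℕ => ones p.1 p.2 := by
  classical
  have h1 : Computable fun x : (ℕ × ℕ) × (ℕ × ℕ) =>
      bif x.1.2.testBit x.2.1 then x.2.2 + 1 else x.2.2 := by fun_prop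
  refine (Computable.nat_rec (f := fun p : ℕ × ℕ => p.1) (g := fun _ => 0)
    (h := fun p q => bif p.2.testBit q.1 then q.2 + 1 else q.2) (by fun_prop) (by fun_prop)
    h1).of_eq fun p => ?_
  obtain ⟨n, t⟩ := p
  dsimp only
  induction n with
  | zero => simp [ones]
  | succ n ih =>
    dsimp only at ih ⊢
    rw [ih]
    unfold ones
    rw [Finset.range_add_one, Finset.filter_insert]
    cases h : t.testBit n
    · simp
    · simp

end comp

section dec

variable {α β : Type} [Primcodable α] [Primcodable β] {A : Set ℕ}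

/-- `S` is decidable relative to `A` -/
def Dec (A : Set ℕ) (S : α → Prop) : Prop := REIn A S ∧ REIn A fun a => ¬ S a

theorem Dec.of_eq {S T : α → Prop} (h : Dec A S) (hST : ∀ a, S a ↔ T a) : Dec A T := by
  have : S = T := funext fun a => propext (hST a)
  rw [← this]; exact h

theorem Dec.of_cp {S : α → Prop} (h : ComputablePred S) : Dec A S :=
  ⟨REIn.of_re h.to_re, REIn.of_re h.not.to_re⟩

theorem Dec.not {S : α → Prop} (h : Dec A S) : Dec A fun a => ¬ S a :=
  ⟨h.2, h.1.of_eq fun _ => not_not.symm⟩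

theorem Dec.and {S T : α → Prop} (hS : Dec A S) (hT : Dec A T) : Dec A fun a => S a ∧ T a :=
  ⟨hS.1.and hT.1, (hS.2.or hT.2).of_eq fun _ => not_and_or.symm⟩

theorem Dec.or {S T : α → Prop} (hS : Dec A S) (hT : Dec A T) : Dec A fun a => S a ∨ T a :=
  ⟨hS.1.or hT.1, (hS.2.and hT.2).of_eq fun _ => not_or.symm⟩

theorem Dec.imp {S T : α → Prop} (hS : Dec A S) (hT : Dec A T) : Dec A fun a => S a → T a :=
  (hS.not.or hT).of_eq fun _ => imp_iff_not_or.symm

theorem Dec.comp {S : β → Prop} (h : Dec A S) {f : α → β} (hf : Computable f) :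
    Dec A fun a => S (f a) := ⟨h.1.comp hf, h.2.comp hf⟩

theorem Dec.all_lt {S : α → ℕ → Prop} (hS : Dec A fun x : α × ℕ => S x.1 x.2) {f : α → ℕ}
    (hf : Computable f) : Dec A fun a => ∀ i < f a, S a i := by
  refine ⟨REIn.all_lt hS.1 hf, ?_⟩
  have h1 : REIn A fun a => ∃ i : ℕ, i < f a ∧ ¬ S a i :=
    REIn.ex (S := fun a (i : ℕ) => i < f a ∧ ¬ S a i)
      (REIn.and (REIn.of_re (RE.lt (by fun_prop) (by fun_prop))) hS.2)
  refine h1.of_eq fun a => ?_
  push Not
  exact Iff.rfl

theorem Dec.ex_lt {S : α → ℕ → Prop} (hS : Dec A fun x : α × ℕ => S x.1 x.2) {f : α → ℕ}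
    (hf : Computable f) : Dec A fun a => ∃ i < f a, S a i := by
  refine ((Dec.all_lt (S := fun a i => ¬ S a i) hS.not hf).not).of_eq fun a => ?_
  push Not
  exact Iff.rfl

/-- the function `F` is computable relative to `A` -/
def FI (A : Set ℕ) (F : α → ℕ) : Prop := REIn A fun p : α × ℕ => F p.1 = p.2

theorem FI.of_comp {F : α → ℕ} (h : Computable F) : FI A F :=
  REIn.of_re (RE.eq (by fun_prop) (by fun_prop))

theorem FI.comp {F : β → ℕ} (h : FI A F) {f : α → β} (hf : Computable f) :
    FI A fun a => F (f a) :=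
  REIn.comp (S := fun p : β × ℕ => F p.1 = p.2) h (f := fun x : α × ℕ => (f x.1, x.2))
    (by fun_prop)

theorem FI.re {F : α → ℕ} (hF : FI A F) {S : α → ℕ → Prop}
    (hS : REIn A fun x : α × ℕ => S x.1 x.2) : REIn A fun a => S a (F a) := by
  have h1 : REIn A fun a => ∃ v, F a = v ∧ S a v :=
    REIn.ex (S := fun a v => F a = v ∧ S a v) (REIn.and hF hS)
  exact h1.of_eq fun a => ⟨fun ⟨v, h1, h2⟩ => h1 ▸ h2, fun h => ⟨_, rfl, h⟩⟩

theorem FI.dec {F : α → ℕ} (hF : FI A F) {S : α → ℕ → Prop}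
    (hS : Dec A fun x : α × ℕ => S x.1 x.2) : Dec A fun a => S a (F a) :=
  ⟨hF.re hS.1, hF.re (S := fun a v => ¬ S a v) hS.2⟩

theorem FI.bind {F : α → ℕ} (hF : FI A F) {G : α → ℕ → ℕ} (hG : FI A fun x : α × ℕ => G x.1 x.2) :
    FI A fun a => G a (F a) := by
  have h1 : FI A fun p : α × ℕ => F p.1 := hF.comp (by fun_prop)
  exact h1.re (S := fun p v => G p.1 v = p.2)
    (REIn.comp (S := fun p : (α × ℕ) × ℕ => G p.1.1 p.1.2 = p.2) hG
      (f := fun x : (α × ℕ) × ℕ => ((x.1.1, x.2), x.1.2)) (by fun_prop))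

open Classical in
theorem FI.card {S : α → ℕ → Prop} (hS : Dec A fun x : α × ℕ => S x.1 x.2) {f : α → ℕ}
    (hf : Computable f) : FI A fun a => ((Finset.range (f a)).filter (S a)).card := by
  have h1 : REIn A fun p : α × ℕ => ∃ t : ℕ, (∀ i < f p.1,
      (t.testBit i = true ∧ S p.1 i) ∨ (¬ t.testBit i = true ∧ ¬ S p.1 i)) ∧
      ones (f p.1) t = p.2 := by
    refine REIn.ex (S := fun (p : α × ℕ) (t : ℕ) => (∀ i < f p.1,
      (t.testBit i = true ∧ S p.1 i) ∨ (¬ t.testBit i = true ∧ ¬ S p.1 i)) ∧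
      ones (f p.1) t = p.2) (REIn.and ?_ ?_)
    · refine REIn.all_lt (S := fun (x : (α × ℕ) × ℕ) i =>
        (x.2.testBit i = true ∧ S x.1.1 i) ∨ (¬ x.2.testBit i = true ∧ ¬ S x.1.1 i))
        (f := fun x => f x.1.1) (REIn.or (REIn.and ?_ ?_) (REIn.and ?_ ?_)) (by fun_prop)
      · exact REIn.of_re (cpdec (by fun_prop)).to_re
      · exact hS.1.comp (f := fun x : ((α × ℕ) × ℕ) × ℕ => (x.1.1.1, x.2)) (by fun_prop)
      · exact REIn.of_re (cpdec (f := fun x : ((α × ℕ) × ℕ) × ℕ => x.1.2.testBit x.2)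
          (by fun_prop)).not.to_re
      · exact hS.2.comp (f := fun x : ((α × ℕ) × ℕ) × ℕ => (x.1.1.1, x.2)) (by fun_prop)
    · have h2 : Computable fun x : (α × ℕ) × ℕ => ones (f x.1.1) x.2 :=
        ones_comp.comp (g := fun x : (α × ℕ) × ℕ => (f x.1.1, x.2)) (by fun_prop)
      exact REIn.of_re (RE.eq h2 (by fun_prop))
  refine h1.of_eq fun p => ?_
  obtain ⟨a, v⟩ := p
  dsimp only
  have key : ∀ t : ℕ, (∀ i < f a,
      (t.testBit i = true ∧ S a i) ∨ (¬ t.testBit i = true ∧ ¬ S a i)) →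
      ones (f a) t = ((Finset.range (f a)).filter (S a)).card := by
    intro t ht
    unfold ones
    congr 1
    ext i
    simp only [Finset.mem_filter, Finset.mem_range]
    constructor
    · rintro ⟨h, h'⟩
      exact ⟨h, by rcases ht i h with h1 | h1; exacts [h1.2, absurd h' h1.1]⟩
    · rintro ⟨h, h'⟩
      exact ⟨h, by rcases ht i h with h1 | h1; exacts [h1.1, absurd h' h1.2]⟩
  constructor
  · rintro ⟨t, ht, rfl⟩
    exact (key t ht).symm
  · intro hv
    have ht : ∀ i < f a, ((pre (fun i => decide (S a i)) (f a)).testBit i = true ∧ S a i) ∨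
        (¬ (pre (fun i => decide (S a i)) (f a)).testBit i = true ∧ ¬ S a i) := by
      intro i hi
      rw [pre_testBit]
      by_cases h : S a i
      · left; simp [hi, h]
      · right; simp [h]
    exact ⟨_, ht, (key _ ht).trans hv⟩

theorem FI.count {S : α → ℕ → Prop} (hS : Dec A fun x : α × ℕ => S x.1 x.2) {f : α → ℕ}
    (hf : Computable f) : FI A fun a => cnt (f a) (S a) :=
  FI.card hS (f := fun a => 2 ^ f a) (by fun_prop)

/-- badness of a block is decidable -/
theorem bad_dec {F G : α → ℕ → Bool} (hF : Dec A fun x : α × ℕ => F x.1 x.2 = true)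
    (hG : Dec A fun x : α × ℕ => G x.1 x.2 = true) {m : α → ℕ} (hm : Computable m) :
    Dec A fun a => bad (m a) (F a) (G a) := by
  classical
  have h1 : Dec A fun x : α × ℕ => F x.1 x.2 ≠ G x.1 x.2 := by
    refine ((hF.and hG.not).or (hF.not.and hG)).of_eq fun x => ?_
    cases F x.1 x.2 <;> cases G x.1 x.2 <;> simp
  have h2 := FI.card (S := fun a i => F a i ≠ G a i) h1 (f := fun a => m a ^ 4) (cfour hm)
  have h3 := h2.dec (S := fun a v => m a ^ 4 + m a ^ 3 ≤ 2 * v)
    (Dec.of_cp (cmp2 (m := fun x : α × ℕ => m x.1) (v := fun x => x.2) (by fun_prop)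
      (by fun_prop)))
  refine h3.of_eq fun a => ?_
  unfold bad dis
  congr! 3
  ext i
  simp only [Finset.mem_filter]

theorem FI.of_funIn {F : ℕ → ℕ} (h : FunIn A F) : FI A F := h

end dec

end Pool.Agent.Helper643.DM
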