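import Pool.Agent.helper643_DM.Comb
import Pool.Agent.H454R3.Att.Dens

/-!
# Few disagreements on the blocks imply upper density at most one half
-/

set_option autoImplicit false

namespace Pool.Agent.Helper643.DM

open Finset Filter
open Pool.Agent.H454R3.Att (upperDensity delta frac_nonneg upperDensity_le)

open Classical in
/-- the characteristic function of a set -/
noncomputable def ch (Y : Set ℕ) (n : ℕ) : Bool := decide (n ∈ Y)

theorem ch_eq_true {Y : Set ℕ} {n : ℕ} : ch Y n = true ↔ n ∈ Y := by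
  unfold ch
  simp

theorem ncard_eq_dis (Y Z : Set ℕ) (n : ℕ) :
    (symmDiff Y Z ∩ Set.Iio n).ncard = dis n (ch Y) (ch Z) := by
  classical
  unfold dis
  rw [← Set.ncard_coe_finset]
  congr 1
  ext i
  simp only [Set.mem_inter_iff, Set.mem_Iio, coe_filter, mem_range, Set.mem_ofPred_eq,
    Set.mem_symmDiff, ch, ne_eq, decide_eq_decide]
  tauto

theorem dis_add (a b : ℕ) (f g : ℕ → Bool) :
    dis (a + b) f g = dis a f g + dis b (fun i => f (a + i)) (fun i => g (a + i)) := by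
  induction b with
  | zero => simp [dis]
  | succ b ih =>
    rw [← add_assoc, dis_succ, ih, dis_succ, add_assoc]

theorem dis_mono {a b : ℕ} (h : a ≤ b) (f g : ℕ → Bool) : dis a f g ≤ dis b f g := by
  obtain ⟨c, rfl⟩ := Nat.exists_eq_add_of_le h
  rw [dis_add]
  omega

theorem bb_big (m : ℕ) : m ^ 5 ≤ 5 * bb m + 5 * m ^ 4 := by
  induction m with
  | zero => simp
  | succ m ih =>
    rw [bb_succ]
    nlinarith [ih, pow_nonneg (Nat.zero_le m) 3, pow_nonneg (Nat.zero_le m) 2, Nat.zero_le m]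

theorem bb_exists (n : ℕ) : ∃ m, bb m ≤ n ∧ n < bb (m + 1) := by
  have hex : ∃ k, n < bb k := by
    refine ⟨n + 10, ?_⟩
    have h1 := bb_big (n + 10)
    have h2 : (n + 10) ^ 5 = (n + 10) * (n + 10) ^ 4 := by ring
    have h3 : 10 ^ 4 ≤ (n + 10) ^ 4 := Nat.pow_le_pow_left (by omega) 4
    by_contra hcon
    push Not at hcon
    have h4 : (n + 5) * 5 ≤ (n + 5) * (n + 10) ^ 4 := Nat.mul_le_mul_left _ (by omega)
    nlinarith
  have h1 := Nat.find_spec hex
  have h2 : Nat.find hex ≠ 0 := by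
    intro h
    rw [h] at h1
    simp [bb] at h1
  obtain ⟨k, hk⟩ : ∃ k, Nat.find hex = k + 1 := ⟨Nat.find hex - 1, by omega⟩
  rw [hk] at h1
  refine ⟨k, ?_, h1⟩
  have := Nat.find_min hex (m := k) (by omega)
  omega

theorem dis_bb {Y Z : Set ℕ} {M : ℕ} (h : ∀ m ≥ M,
    ¬ bad m (fun i => ch Y (bb m + i)) (fun i => ch Z (bb m + i))) (m : ℕ) :
    2 * dis (bb m) (ch Y) (ch Z) ≤ 2 * bb M + bb m + m ^ 4 := by
  rcases le_or_gt m M with hm | hm
  · have h1 := dis_le (bb m) (ch Y) (ch Z)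
    have h2 := bb_mono hm
    omega
  · induction m, hm.le using Nat.le_induction with
    | base => exact absurd hm (lt_irrefl _)
    | succ m hMm ih =>
      have h1 : 2 * dis (bb m) (ch Y) (ch Z) ≤ 2 * bb M + bb m + m ^ 4 := by
        rcases Nat.lt_or_ge M m with h | h'
        · exact ih h
        · have h2 := dis_le (bb m) (ch Y) (ch Z)
          have h3 := bb_mono h'
          omega
      have h2 := h m hMm
      unfold bad at h2
      push Not at h2
      rw [bb_succ, dis_add]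
      have h3 : (m + 1) ^ 4 = m ^ 4 + 4 * m ^ 3 + 6 * m ^ 2 + 4 * m + 1 := by ring
      rw [h3]
      nlinarith [pow_nonneg (Nat.zero_le m) 3, pow_nonneg (Nat.zero_le m) 2]

theorem delta_le_half {Y Z : Set ℕ} (M : ℕ) (h : ∀ m ≥ M,
    ¬ bad m (fun i => ch Y (bb m + i)) (fun i => ch Z (bb m + i))) : delta Y Z ≤ 1 / 2 := by
  refine le_of_forall_pos_le_add fun ε hε => ?_
  unfold delta
  apply upperDensity_le
  rw [eventually_atTop]
  obtain ⟨K, hK⟩ := exists_nat_gt ((bb M + 2) / ε)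
  refine ⟨bb (5 * K + 6), fun n hn => ?_⟩
  obtain ⟨m, hm1, hm2⟩ := bb_exists n
  have hmK : 5 * K + 6 ≤ m := by
    by_contra hcon
    have := bb_mono (show m + 1 ≤ 5 * K + 6 by omega)
    omega
  have h1 := dis_bb h m
  have h2 : dis n (ch Y) (ch Z) ≤ dis (bb m) (ch Y) (ch Z) + m ^ 4 := by
    refine (dis_mono hm2.le _ _).trans ?_
    rw [bb_succ, dis_add]
    have := dis_le (m ^ 4) (fun i => ch Y (bb m + i)) fun i => ch Z (bb m + i)
    omega
  have h3 : 2 * dis n (ch Y) (ch Z) ≤ n + (2 * bb M + 3 * m ^ 4) := by omega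
  have h4 : (m : ℝ) ^ 4 * (m - 5) ≤ 5 * n := by
    have h5 := bb_big m
    have h6 : (m : ℝ) ^ 5 ≤ 5 * bb m + 5 * m ^ 4 := by exact_mod_cast h5
    have h7 : (bb m : ℝ) ≤ n := by exact_mod_cast hm1
    nlinarith
  have h5 : (2 * dis n (ch Y) (ch Z) : ℝ) ≤ n + (2 * bb M + 3 * m ^ 4) := by exact_mod_cast h3
  have hmR : (5 * K + 6 : ℝ) ≤ m := by exact_mod_cast hmK
  have hKpos : (0 : ℝ) ≤ K := Nat.cast_nonneg K
  have hm4 : (1 : ℝ) ≤ (m : ℝ) ^ 4 := one_le_pow₀ (by linarith)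
  have hnpos : (0 : ℝ) < n := by nlinarith
  rw [ncard_eq_dis, div_le_iff₀ hnpos]
  have h6 : (bb M + 2 : ℝ) < K * ε := by
    rw [div_lt_iff₀ hε] at hK
    exact hK
  have hbb : (0 : ℝ) ≤ bb M := Nat.cast_nonneg _
  have h7 : (2 * bb M + 3 * (m : ℝ) ^ 4) ≤ 2 * ε * n := by
    have h8 : (2 * bb M + 3 * (m : ℝ) ^ 4) ≤ 2 * (bb M + 2) * (m : ℝ) ^ 4 := by nlinarith
    have h9 : 2 * (bb M + 2) * (m : ℝ) ^ 4 ≤ 2 * (K * ε) * (m : ℝ) ^ 4 := by
      have : (0 : ℝ) ≤ (m : ℝ) ^ 4 := by positivity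
      nlinarith
    have h10 : (5 * K : ℝ) * (m : ℝ) ^ 4 ≤ 5 * n := by
      have h11 : (5 * K : ℝ) ≤ m - 5 := by linarith
      nlinarith
    have h12 : 2 * (K * ε) * (m : ℝ) ^ 4 ≤ 2 * ε * n := by
      have : (K : ℝ) * (m : ℝ) ^ 4 ≤ n := by linarith
      nlinarith
    linarith
  linarith

end Pool.Agent.Helper643.DM
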