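import Pool.Agent.helper643_DM.DecIn
import Pool.Agent.helper643_DM.Density
import Pool.Agent.H454R3.Att.Kurtz

/-!
# Functionals on finite strings
-/

set_option autoImplicit false

namespace Pool.Agent.Helper643.DM

open Encodable Pool.Agent.Helper578.JD Pool.Agent.Helper578.JD.Oracle
open Pool.Agent.H454R3.Att (FunIn unif V V_cp wd wd_comp wd_encode toSet)

/-- the finite information `c` is correct for the string `k` of length `s` -/
def okS (s k : ℕ) (c : Info) : Prop :=
  (∀ y ∈ c.1, y < s ∧ k.testBit y = true) ∧ ∀ y ∈ c.2, y < s ∧ k.testBit y = false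

/-- `w` is a computation for the input `n` -/
def hit (e n s k w : ℕ) : Prop := V e n w ∧ okS s k (wd w).1.2

/-- the functional `e` converges for the input `n` and the string `k` of length `s` -/
def conv (e n s k : ℕ) : Prop := ∃ w < s, hit e n s k w

/-- the answer for the input `n` is positive -/
def ansT (e n s k : ℕ) : Prop :=
  ∃ w < s, hit e n s k w ∧ (wd w).1.1 = true ∧ ∀ w' < w, ¬ hit e n s k w'

section

variable {α : Type} [Primcodable α] {A : Set ℕ}

theorem hit_cp {e n s k w : α → ℕ} (he : Computable e) (hn : Computable n) (hs : Computable s)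
    (hk : Computable k) (hw : Computable w) :
    ComputablePred fun a => hit (e a) (n a) (s a) (k a) (w a) := by
  have hwd := wd_comp
  have h1 : ComputablePred fun a => okS (s a) (k a) (wd (w a)).1.2 := by
    refine RE.cp_of_re (RE.and ?_ ?_) ?_
    · exact RE.all_mem (p := fun a y => y < s a ∧ (k a).testBit y = true)
        (l := fun a => (wd (w a)).1.2.1)
        (RE.and (RE.lt (by fun_prop) (by fun_prop)) (RE.eq (by fun_prop) (by fun_prop)))
        (by fun_prop)
    · exact RE.all_mem (p := fun a y => y < s a ∧ (k a).testBit y = false)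
        (l := fun a => (wd (w a)).1.2.2)
        (RE.and (RE.lt (by fun_prop) (by fun_prop)) (RE.eq (by fun_prop) (by fun_prop)))
        (by fun_prop)
    · have h2 : REPred fun a => (∃ y ∈ (wd (w a)).1.2.1, s a ≤ y ∨ (k a).testBit y = false) ∨
          ∃ y ∈ (wd (w a)).1.2.2, s a ≤ y ∨ (k a).testBit y = true := by
        refine RE.or ?_ ?_
        · exact RE.ex_mem (p := fun a y => s a ≤ y ∨ (k a).testBit y = false)
            (l := fun a => (wd (w a)).1.2.1)
            (RE.or (RE.le (by fun_prop) (by fun_prop)) (RE.eq (by fun_prop) (by fun_prop)))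
            (by fun_prop)
        · exact RE.ex_mem (p := fun a y => s a ≤ y ∨ (k a).testBit y = true)
            (l := fun a => (wd (w a)).1.2.2)
            (RE.or (RE.le (by fun_prop) (by fun_prop)) (RE.eq (by fun_prop) (by fun_prop)))
            (by fun_prop)
      refine h2.of_eq fun a => ?_
      unfold okS
      rw [not_and_or]
      push Not
      refine or_congr (exists_congr fun y => and_congr_right fun _ => ?_)
        (exists_congr fun y => and_congr_right fun _ => ?_)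
      · rw [or_iff_not_imp_left]; simp
      · rw [or_iff_not_imp_left]; simp
  exact RE.cp_of_re (RE.and (V_cp he hn hw).to_re h1.to_re) (by
    refine (RE.or (V_cp he hn hw).not.to_re h1.not.to_re).of_eq fun a => ?_
    unfold hit
    rw [not_and_or])

theorem conv_dec {e n s k : α → ℕ} (he : Computable e) (hn : Computable n) (hs : Computable s)
    (hk : Computable k) : Dec A fun a => conv (e a) (n a) (s a) (k a) :=
  Dec.ex_lt (S := fun a w => hit (e a) (n a) (s a) (k a) w)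
    (Dec.of_cp (hit_cp (by fun_prop) (by fun_prop) (by fun_prop) (by fun_prop) (by fun_prop))) hs

theorem ansT_dec {e n s k : α → ℕ} (he : Computable e) (hn : Computable n) (hs : Computable s)
    (hk : Computable k) : Dec A fun a => ansT (e a) (n a) (s a) (k a) := by
  have hwd := wd_comp
  refine Dec.ex_lt (S := fun a w => hit (e a) (n a) (s a) (k a) w ∧ (wd w).1.1 = true ∧
    ∀ w' < w, ¬ hit (e a) (n a) (s a) (k a) w') (Dec.and ?_ (Dec.and ?_ ?_)) hs
  · exact Dec.of_cp (hit_cp (by fun_prop) (by fun_prop) (by fun_prop) (by fun_prop) (by fun_prop))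
  · exact Dec.of_cp (cpdec (by fun_prop))
  · exact Dec.all_lt (S := fun (x : α × ℕ) w' => ¬ hit (e x.1) (n x.1) (s x.1) (k x.1) w')
      (f := fun x => x.2) (Dec.of_cp (hit_cp (by fun_prop) (by fun_prop) (by fun_prop)
      (by fun_prop) (by fun_prop))).not (by fun_prop)

end

theorem okS_mono {s s' k : ℕ} (h : s ≤ s') {c : Info} (hc : okS s (k % 2 ^ s) c) : okS s' k c := by
  refine ⟨fun y hy => ?_, fun y hy => ?_⟩
  · obtain ⟨h1, h2⟩ := hc.1 y hy
    rw [Nat.testBit_mod_two_pow] at h2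
    exact ⟨by omega, by simpa [h1] using h2⟩
  · obtain ⟨h1, h2⟩ := hc.2 y hy
    rw [Nat.testBit_mod_two_pow] at h2
    exact ⟨by omega, by simpa [h1] using h2⟩

theorem conv_mono {e n s s' k : ℕ} (h : s ≤ s') (hc : conv e n s (k % 2 ^ s)) :
    conv e n s' k := by
  obtain ⟨w, hw, h1, h2⟩ := hc
  exact ⟨w, by omega, h1, okS_mono h h2⟩

/-- the functional converges on the block number `m` -/
def TB (e m s k : ℕ) : Prop := ∀ i < m ^ 4, conv e (bb m + i) s k

theorem TB_mono {e m s s' k : ℕ} (h : s ≤ s') (hc : TB e m s (k % 2 ^ s)) : TB e m s' k :=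
  fun i hi => conv_mono h (hc i hi)

open Classical in
/-- the answers on the block number `m` -/
noncomputable def ansF (e m s k : ℕ) (i : ℕ) : Bool := decide (ansT e (bb m + i) s k)

theorem TB_dec {α : Type} [Primcodable α] {A : Set ℕ} {e m s k : α → ℕ} (he : Computable e)
    (hm : Computable m) (hs : Computable s) (hk : Computable k) :
    Dec A fun a => TB (e a) (m a) (s a) (k a) :=
  Dec.all_lt (S := fun a i => conv (e a) (bb (m a) + i) (s a) (k a)) (f := fun a => m a ^ 4)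
    (conv_dec (by fun_prop) (by fun_prop) (by fun_prop) (by fun_prop)) (cfour hm)

theorem ansF_dec {α : Type} [Primcodable α] {A : Set ℕ} {e m s k i : α → ℕ} (he : Computable e)
    (hm : Computable m) (hs : Computable s) (hk : Computable k) (hi : Computable i) :
    Dec A fun a => ansF (e a) (m a) (s a) (k a) (i a) = true := by
  refine (ansT_dec (e := e) (n := fun a => bb (m a) + i a) (s := s) (k := k) he (by fun_prop)
    hs hk).of_eq fun a => ?_
  unfold ansF
  simp

/-- the functional `e` computes `Y` from `X` -/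
def Cmp (e : ℕ) (X Y : Set ℕ) : Prop :=
  (∀ n, ∃ w, V e n w ∧ Ok X (wd w).1.2) ∧
    ∀ n w, V e n w → Ok X (wd w).1.2 → ((wd w).1.1 = true ↔ n ∈ Y)

theorem exists_cmp {X Y : Set ℕ} (h : Red Y X) : ∃ e, Cmp e X Y := by
  obtain ⟨⟨R1, hR1, h1⟩, ⟨R0, hR0, h0⟩⟩ := Red_iff.1 h
  have hR : REPred fun x : ℕ × (Bool × Info) => (x.2.1 = true ∧ R1 x.1 x.2.2) ∨
      (x.2.1 = false ∧ R0 x.1 x.2.2) :=
    RE.or
      (RE.and (RE.eq (by fun_prop) (by fun_prop))
        (RE.comp hR1 (f := fun x : ℕ × (Bool × Info) => (x.1, x.2.2)) (by fun_prop)))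
      (RE.and (RE.eq (by fun_prop) (by fun_prop))
        (RE.comp hR0 (f := fun x : ℕ × (Bool × Info) => (x.1, x.2.2)) (by fun_prop)))
  obtain ⟨e, he⟩ := RE.wst_univ hR
  refine ⟨e, fun n => ?_, fun n w hV hok => ?_⟩
  · by_cases hx : n ∈ Y
    · obtain ⟨c, hc, hok⟩ := (h1 n).1 hx
      obtain ⟨t, ht⟩ := (he (n, (true, c))).1 (Or.inl ⟨rfl, hc⟩)
      refine ⟨encode ((true, c), t), ?_, by rw [wd_encode]; exact hok⟩
      unfold V; rw [wd_encode]; exact ht
    · obtain ⟨c, hc, hok⟩ := (h0 n).1 hx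
      obtain ⟨t, ht⟩ := (he (n, (false, c))).1 (Or.inr ⟨rfl, hc⟩)
      refine ⟨encode ((false, c), t), ?_, by rw [wd_encode]; exact hok⟩
      unfold V; rw [wd_encode]; exact ht
  · rcases (he (n, (wd w).1)).2 ⟨_, hV⟩ with ⟨h2, h3⟩ | ⟨h2, h3⟩
    · simp only at h2 h3
      rw [h2]
      exact iff_of_true rfl ((h1 n).2 ⟨_, h3, hok⟩)
    · simp only at h2 h3
      rw [h2]
      exact iff_of_false (by simp) ((h0 n).2 ⟨_, h3, hok⟩)

theorem Cmp.unique {e : ℕ} {X Y Z : Set ℕ} (h : Cmp e X Y) (h' : Cmp e X Z) : Y = Z := by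
  ext n
  obtain ⟨w, hw, hok⟩ := h.1 n
  rw [← h.2 n w hw hok, ← h'.2 n w hw hok]

theorem Cmp.red {e : ℕ} {X Y : Set ℕ} (h : Cmp e X Y) : Red Y X := by
  have hwd := wd_comp
  have key : ∀ b : Bool, REIn X fun n : ℕ => ∃ w : ℕ, V e n w ∧ Ok X (wd w).1.2 ∧
      (wd w).1.1 = b := by
    intro b
    refine REIn.ex (S := fun (n w : ℕ) => V e n w ∧ Ok X (wd w).1.2 ∧ (wd w).1.1 = b)
      (REIn.and ?_ (REIn.and ?_ ?_))
    · exact REIn.of_re (V_cp (by fun_prop) (by fun_prop) (by fun_prop)).to_re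
    · exact Pool.Agent.H454R3.Att.ok_re.comp (f := fun x : ℕ × ℕ => (wd x.2).1.2) (by fun_prop)
    · exact REIn.of_re (RE.eq (by fun_prop) (by fun_prop))
  rw [Red_iff]
  constructor
  · refine (key true).of_eq fun n => ?_
    constructor
    · rintro ⟨w, h1, h2, h3⟩
      exact (h.2 n w h1 h2).1 h3
    · intro hn
      obtain ⟨w, h1, h2⟩ := h.1 n
      exact ⟨w, h1, h2, (h.2 n w h1 h2).2 hn⟩
  · refine (key false).of_eq fun n => ?_
    constructor
    · rintro ⟨w, h1, h2, h3⟩ hn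
      rw [(h.2 n w h1 h2).2 hn] at h3
      exact absurd h3 (by simp)
    · intro hn
      obtain ⟨w, h1, h2⟩ := h.1 n
      refine ⟨w, h1, h2, ?_⟩
      by_contra hcon
      exact hn ((h.2 n w h1 h2).1 (by simpa using hcon))

theorem ok_of_okS {x : ℕ → Bool} {s : ℕ} {c : Info} (h : okS s (pre x s) c) : Ok (toSet x) c := by
  refine ⟨fun y hy => ?_, fun y hy => ?_⟩
  · obtain ⟨h1, h2⟩ := h.1 y hy
    rw [pre_testBit] at h2
    show x y = true
    simpa [h1] using h2
  · obtain ⟨h1, h2⟩ := h.2 y hy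
    rw [pre_testBit] at h2
    have h3 : x y = false := by simpa [h1] using h2
    show ¬ (x y = true)
    rw [h3]
    simp

theorem okS_of_ok {x : ℕ → Bool} {c : Info} (h : Ok (toSet x) c) :
    ∃ s₀, ∀ s ≥ s₀, okS s (pre x s) c := by
  refine ⟨(c.1 ++ c.2).sum + 1, fun s hs => ⟨fun y hy => ?_, fun y hy => ?_⟩⟩
  · have h1 : y ≤ (c.1 ++ c.2).sum := List.le_sum_of_mem (by simp [hy])
    have h2 : y < s := by omega
    refine ⟨h2, ?_⟩
    rw [pre_testBit]
    have h3 : x y = true := h.1 y hy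
    simp [h2, h3]
  · have h1 : y ≤ (c.1 ++ c.2).sum := List.le_sum_of_mem (by simp [hy])
    have h2 : y < s := by omega
    refine ⟨h2, ?_⟩
    rw [pre_testBit]
    have h3 : ¬ (x y = true) := h.2 y hy
    simp [h2, h3]

theorem Cmp.conv {e : ℕ} {x : ℕ → Bool} {Y : Set ℕ} (h : Cmp e (toSet x) Y) (n : ℕ) :
    ∃ s₀, ∀ s ≥ s₀, conv e n s (pre x s) := by
  obtain ⟨w, hw, hok⟩ := h.1 n
  obtain ⟨s₀, hs₀⟩ := okS_of_ok hok
  exact ⟨max s₀ (w + 1), fun s hs => ⟨w, by omega, hw, hs₀ s (by omega)⟩⟩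

theorem Cmp.TB {e : ℕ} {x : ℕ → Bool} {Y : Set ℕ} (h : Cmp e (toSet x) Y) (m : ℕ) :
    ∃ s, TB e m s (pre x s) := by
  have h1 : ∀ N : ℕ, ∃ s₀, ∀ s ≥ s₀, ∀ i < N, DM.conv e (bb m + i) s (pre x s) := by
    intro N
    induction N with
    | zero => exact ⟨0, fun s _ i hi => by omega⟩
    | succ N ih =>
      obtain ⟨s₀, hs₀⟩ := ih
      obtain ⟨s₁, hs₁⟩ := h.conv (bb m + N)
      refine ⟨max s₀ s₁, fun s hs i hi => ?_⟩
      rcases Nat.lt_succ_iff_lt_or_eq.1 hi with h2 | rfl
      · exact hs₀ s (by omega) i h2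
      · exact hs₁ s (by omega)
  obtain ⟨s, hs⟩ := h1 (m ^ 4)
  exact ⟨s, hs s le_rfl⟩

theorem Cmp.ansT {e : ℕ} {x : ℕ → Bool} {Y : Set ℕ} (h : Cmp e (toSet x) Y) {n s : ℕ}
    (hc : DM.conv e n s (pre x s)) : ansT e n s (pre x s) ↔ n ∈ Y := by
  classical
  constructor
  · rintro ⟨w, _, ⟨h1, h2⟩, h3, _⟩
    exact (h.2 n w h1 (ok_of_okS h2)).1 h3
  · intro hn
    obtain ⟨hw1, hw2⟩ := Nat.find_spec hc
    refine ⟨Nat.find hc, hw1, hw2, (h.2 n _ hw2.1 (ok_of_okS hw2.2)).2 hn, fun w' hw' hh => ?_⟩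
    exact Nat.find_min hc hw' ⟨by omega, hh⟩

theorem Cmp.ansF {e : ℕ} {x : ℕ → Bool} {Y : Set ℕ} (h : Cmp e (toSet x) Y) {m s : ℕ}
    (hc : DM.TB e m s (pre x s)) {i : ℕ} (hi : i < m ^ 4) :
    ansF e m s (pre x s) i = ch Y (bb m + i) := by
  unfold DM.ansF ch
  rw [decide_eq_decide]
  exact h.ansT (hc i hi)

end Pool.Agent.Helper643.DM
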