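import Pool.Agent.helper643_DM.Pair
import Pool.Agent.H454R3.Att.Main

/-!
# The distance-1/2 graph on the Turing degrees: definitions and the upper bound
-/

set_option autoImplicit false

namespace Pool.Agent.Helper643.DM

open Encodable Pool.Agent.Helper578.JD Pool.Agent.Helper578.JD.Oracle Filter
open Pool.Agent.H454R3.Att (FunIn unif toSet delta upperDensity CoarseSpace cls dist_cls TEqv bd
  bd_succ bd_pos bd_computable bd_lt bd_strictMono bd_unique bd_exists delta_triangle delta_comm
  upperDensity_le_one upperDensity_nonneg frac_nonneg bddU)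

/-- The set of the classes `[X]` of the sets `X ≤_T A`. -/
def lowSet (A : Set ℕ) : Set CoarseSpace := {x | ∃ X : Set ℕ, Red X A ∧ x = cls X}

/-- The closure of the set of the classes `[X]` of the sets `X ≤_T A`. -/
def lowClosure (A : Set ℕ) : Set CoarseSpace := closure (lowSet A)

/-- The Hausdorff distance of the closures. -/
noncomputable def HD (A B : Set ℕ) : ℝ := Metric.hausdorffDist (lowClosure A) (lowClosure B)

theorem HD_comm (A B : Set ℕ) : HD A B = HD B A := Metric.hausdorffDist_comm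

theorem isBounded_coarse (s : Set CoarseSpace) : Bornology.IsBounded s := by
  rw [Metric.isBounded_iff]
  refine ⟨1, fun a _ b _ => ?_⟩
  obtain ⟨a, rfl⟩ := SeparationQuotient.surjective_mk a
  obtain ⟨b, rfl⟩ := SeparationQuotient.surjective_mk b
  exact upperDensity_le_one _

theorem mem_lowClosure {X A : Set ℕ} (h : Red X A) : cls X ∈ lowClosure A :=
  subset_closure ⟨X, h, rfl⟩

theorem HD_le_half {A B : Set ℕ} (h1 : ∀ Y, Red Y A → ∃ Z, Red Z B ∧ delta Y Z ≤ 1 / 2)
    (h2 : ∀ Y, Red Y B → ∃ Z, Red Z A ∧ delta Y Z ≤ 1 / 2) : HD A B ≤ 1 / 2 := by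
  unfold HD lowClosure
  rw [Metric.hausdorffDist_closure]
  refine Metric.hausdorffDist_le_of_mem_dist (by norm_num) ?_ ?_
  · rintro _ ⟨Y, hY, rfl⟩
    obtain ⟨Z, hZ, hd⟩ := h1 Y hY
    exact ⟨cls Z, ⟨Z, hZ, rfl⟩, by rw [dist_cls]; exact hd⟩
  · rintro _ ⟨Y, hY, rfl⟩
    obtain ⟨Z, hZ, hd⟩ := h2 Y hY
    exact ⟨cls Z, ⟨Z, hZ, rfl⟩, by rw [dist_cls]; exact hd⟩

/-- if the distance is small then all sets below `A` are close to sets below `B` -/
theorem exists_of_HD_lt {A B X : Set ℕ} {r : ℝ} (h : HD A B < r) (hX : Red X A) :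
    ∃ D, Red D B ∧ delta X D < r := by
  obtain ⟨y, hy, hd⟩ := Metric.exists_dist_lt_of_hausdorffDist_lt (mem_lowClosure hX) h
    (Metric.hausdorffEDist_ne_top_of_nonempty_of_bounded ⟨_, mem_lowClosure (Red.refl A)⟩
      ⟨_, mem_lowClosure (Red.refl B)⟩ (isBounded_coarse _) (isBounded_coarse _))
  obtain ⟨_, ⟨D, hD, rfl⟩, hyD⟩ := Metric.mem_closure_iff.1 hy (r - dist (cls X) y) (by linarith)
  refine ⟨D, hD, ?_⟩
  rw [← dist_cls]
  have := dist_triangle (cls X) y (cls D)
  linarith

/-! ### the repetition code -/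

/-- every bit of `A` is repeated on a long block -/
def rep (A : Set ℕ) : Set ℕ := {x | ∃ k, (bd k ≤ x ∧ x < bd (k + 1)) ∧ k ∈ A}

theorem rep_red (A : Set ℕ) : Red (rep A) A := by
  have hbd := bd_computable
  have hbdc : ∀ {α : Type} [Primcodable α] {f : α → ℕ}, Computable f →
      Computable fun x => bd (f x) := fun hf => hbd.comp hf
  have hb1 : REPred fun p : ℕ × ℕ => bd p.2 ≤ p.1 ∧ p.1 < bd (p.2 + 1) :=
    RE.and (RE.le (hbdc (by fun_prop)) (by fun_prop)) (RE.lt (by fun_prop) (hbdc (by fun_prop)))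
  rw [Red_iff]
  constructor
  · exact REIn.ex (S := fun (x k : ℕ) => (bd k ≤ x ∧ x < bd (k + 1)) ∧ k ∈ A)
      (REIn.and (REIn.of_re hb1) (REIn.mem (f := fun p : ℕ × ℕ => p.2) (by fun_prop)))
  · have h1 : REIn A fun x : ℕ => x < 1 ∨ ∃ k, (bd k ≤ x ∧ x < bd (k + 1)) ∧ k ∉ A := by
      refine REIn.or (REIn.of_re (RE.lt (by fun_prop) (by fun_prop))) ?_
      exact REIn.ex (S := fun (x k : ℕ) => (bd k ≤ x ∧ x < bd (k + 1)) ∧ k ∉ A)
        (REIn.and (REIn.of_re hb1) (REIn.not_mem (f := fun p : ℕ × ℕ => p.2) (by fun_prop)))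
    refine h1.of_eq fun x => ?_
    constructor
    · rintro (h | ⟨k, hk, hkA⟩) ⟨l, hl, hlA⟩
      · have := bd_pos l; omega
      · obtain rfl := bd_unique hk.1 hk.2 hl.1 hl.2
        exact hkA hlA
    · intro h
      rcases Nat.lt_or_ge x 1 with h1 | h1
      · exact Or.inl h1
      · obtain ⟨k, hk1, hk2⟩ := bd_exists h1
        exact Or.inr ⟨k, ⟨hk1, hk2⟩, fun hA => h ⟨k, ⟨hk1, hk2⟩, hA⟩⟩

/-- the length of the block -/
def len (k : ℕ) : ℕ := bd (k + 1) - bd k

theorem bd_len (k : ℕ) : bd k + len k = bd (k + 1) := by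
  have := bd_lt k
  unfold len
  omega

theorem ch_rep {A : Set ℕ} {k i : ℕ} (hi : i < len k) : ch (rep A) (bd k + i) = ch A k := by
  have h0 := bd_len k
  have h1 : bd k + i ∈ rep A ↔ k ∈ A := by
    constructor
    · rintro ⟨l, hl, hlA⟩
      obtain rfl := bd_unique (show bd k ≤ bd k + i by omega) (by omega) hl.1 hl.2
      exact hlA
    · intro h
      exact ⟨k, ⟨by omega, by omega⟩, h⟩
  unfold ch
  rw [decide_eq_decide]
  exact h1

theorem dis_true_add_dis_false (L : ℕ) (f : ℕ → Bool) :
    dis L (fun _ => true) f + dis L (fun _ => false) f = L := by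
  induction L with
  | zero => simp [dis]
  | succ L ih =>
    rw [dis_succ, dis_succ]
    cases f L <;> simp <;> omega

theorem red_of_close {A D : Set ℕ} (h : delta (rep A) D < 1 / 2) : Red A D := by
  classical
  obtain ⟨c, hc1, hc2⟩ := exists_between h
  have hc0 : 0 ≤ delta (rep A) D := upperDensity_nonneg _
  have h1 := eventually_lt_of_limsup_lt (show limsup (fun n : ℕ =>
    ((symmDiff (rep A) D ∩ Set.Iio n).ncard : ℝ) / n) atTop < c from hc1) (bddU _)
  rw [eventually_atTop] at h1
  obtain ⟨K1, hK1⟩ := h1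
  obtain ⟨K2, hK2⟩ := exists_nat_gt (1 / (1 - 2 * c))
  set K := max K1 K2 with hK
  -- the majority is right
  have key : ∀ k ≥ K, (k ∈ A ↔ 2 * dis (len k) (fun _ => true) (fun i => ch D (bd k + i)) <
      len k) := by
    intro k hk
    have h2 := hK1 (bd (k + 1)) (by
      have := bd_strictMono.id_le (k + 1)
      simp only [id] at this
      omega)
    rw [ncard_eq_dis, ← bd_len, dis_add] at h2
    have h3 : (0 : ℝ) < ((bd k + len k : ℕ) : ℝ) := by
      have := bd_pos k
      exact_mod_cast (by omega : 0 < bd k + len k)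
    rw [div_lt_iff₀ h3] at h2
    push_cast at h2 h3
    have h4 : ((len k : ℕ) : ℝ) = (k + 1) * bd k := by
      have h5 : bd k + len k = (k + 2) * bd k := by rw [bd_len, bd_succ]
      have h6 : (bd k : ℝ) + len k = (k + 2) * bd k := by exact_mod_cast h5
      linarith
    have h5 : (0 : ℝ) ≤ (dis (bd k) (ch (rep A)) (ch D) : ℝ) := Nat.cast_nonneg _
    have h6 : (1 : ℝ) ≤ (k + 1 : ℝ) * (1 - 2 * c) := by
      have h7 : (K2 : ℝ) ≤ k := by
        have : K2 ≤ k := by omega
        exact_mod_cast this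
      have h8 : (0 : ℝ) < 1 - 2 * c := by linarith
      rw [div_lt_iff₀ h8] at hK2
      nlinarith
    have h7 : (0 : ℝ) < bd k := by exact_mod_cast bd_pos k
    have h8 : (2 * dis (len k) (fun i => ch (rep A) (bd k + i)) (fun i => ch D (bd k + i)) : ℝ) <
        len k := by
      rw [h4] at h2 ⊢
      nlinarith
    have h9 : 2 * dis (len k) (fun i => ch (rep A) (bd k + i)) (fun i => ch D (bd k + i)) <
        len k := by exact_mod_cast h8
    rw [dis_congr (f' := fun _ => ch A k) (g' := fun i => ch D (bd k + i))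
      (fun i hi => ch_rep hi) (fun _ _ => rfl)] at h9
    have h10 := dis_true_add_dis_false (len k) (fun i => ch D (bd k + i))
    constructor
    · intro hk'
      rw [ch_eq_true.2 hk'] at h9
      exact h9
    · intro h11
      by_contra hk'
      have h12 : ch A k = false := by
        unfold ch
        simpa using hk'
      rw [h12] at h9
      omega
  have hbd := bd_computable
  have hbdc : ∀ {α : Type} [Primcodable α] {f : α → ℕ}, Computable f →
      Computable fun x => bd (f x) := fun hf => hbd.comp hf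
  have hlen : Computable len := by
    have h2 : Computable fun k : ℕ => bd (k + 1) - bd k :=
      RE.csub (hbdc (by fun_prop)) (hbdc (by fun_prop))
    exact h2
  have hD : Dec D fun n : ℕ => n ∈ D := Red_iff.1 (Red.refl D)
  have hS : Dec D fun k : ℕ => 2 * dis (len k) (fun _ => true) (fun i => ch D (bd k + i)) <
      len k := by
    have h2 : Dec D fun x : ℕ × ℕ => true ≠ ch D (bd x.1 + x.2) := by
      refine ((hD.comp (f := fun x : ℕ × ℕ => bd x.1 + x.2)
        (RE.cadd (hbdc (by fun_prop)) (by fun_prop))).not).of_eq fun x => ?_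
      rw [← ch_eq_true, ne_comm]
    have h3 := FI.card (S := fun (k i : ℕ) => true ≠ ch D (bd k + i)) h2 (f := len) hlen
    refine (h3.dec (S := fun k v => 2 * v < len k) (Dec.of_cp (RE.cp_lt (by fun_prop)
      (hlen.comp (by fun_prop))))).of_eq fun k => ?_
    unfold dis
    congr! 3
    ext i
    simp only [Finset.mem_filter]
  let l : List ℕ := (List.range K).filter fun k => decide (k ∈ A)
  have hl : ∀ k, k ∈ l ↔ k < K ∧ k ∈ A := by
    intro k
    simp [l]
  have hA : Dec D fun k : ℕ => k ∈ l ∨ (K ≤ k ∧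
      2 * dis (len k) (fun _ => true) (fun i => ch D (bd k + i)) < len k) :=
    Dec.or (Dec.of_cp (RE.cp_mem (f := fun k : ℕ => k) (l := fun _ => l) (by fun_prop)
      (by fun_prop))) (Dec.and (Dec.of_cp (RE.cp_le (by fun_prop) (by fun_prop))) hS)
  have hA' : Dec D fun k : ℕ => k ∈ A := by
    refine hA.of_eq fun k => ?_
    rw [hl]
    rcases Nat.lt_or_ge k K with h2 | h2
    · constructor
      · rintro (h3 | h3)
        · exact h3.2
        · omega
      · intro h3
        exact Or.inl ⟨h2, h3⟩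
    · rw [← key k h2]
      constructor
      · rintro (h3 | h3)
        · exact h3.2
        · exact h3.2
      · intro h3
        exact Or.inr ⟨h2, h3⟩
  exact Red_iff.2 hA'

theorem half_le_HD {A B : Set ℕ} (h : ¬ Red A B) : 1 / 2 ≤ HD A B := by
  by_contra hcon
  push Not at hcon
  obtain ⟨D, hD, hd⟩ := exists_of_HD_lt hcon (rep_red A)
  exact h ((red_of_close hd).trans hD)

/-! ### the graph -/

/-- Turing equivalence on the subsets of `ℕ`. -/
instance degSetoid : Setoid (Set ℕ) where
  r := TEqv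
  iseqv := ⟨fun A => ⟨Red.refl A, Red.refl A⟩, fun h => ⟨h.2, h.1⟩,
    fun h h' => ⟨h.1.trans h'.1, h'.2.trans h.2⟩⟩

/-- The Turing degrees of the subsets of `ℕ`. -/
def Deg : Type := Quotient degSetoid

/-- The degree of a set. -/
def degOf (A : Set ℕ) : Deg := Quotient.mk degSetoid A

theorem lowClosure_congr {A B : Set ℕ} (h : TEqv A B) : lowClosure A = lowClosure B := by
  unfold lowClosure lowSet
  congr 1
  ext x
  constructor
  · rintro ⟨X, hX, rfl⟩
    exact ⟨X, hX.trans h.1, rfl⟩
  · rintro ⟨X, hX, rfl⟩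
    exact ⟨X, hX.trans h.2, rfl⟩

/-- The Hausdorff distance of the closures of two degrees. -/
noncomputable def Hdeg (a b : Deg) : ℝ :=
  Quotient.lift₂ HD (fun A B A' B' (h : TEqv A A') (h' : TEqv B B') => by
    unfold HD
    rw [lowClosure_congr h, lowClosure_congr h']) a b

theorem Hdeg_mk (A B : Set ℕ) : Hdeg (degOf A) (degOf B) = HD A B := rfl

theorem Hdeg_comm (a b : Deg) : Hdeg a b = Hdeg b a := by
  induction a using Quotient.inductionOn
  induction b using Quotient.inductionOn
  exact HD_comm _ _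

/-- The graph of all Turing degrees in which two distinct degrees are adjacent if and only if their
distance is `1/2`. -/
def halfGraph : SimpleGraph Deg where
  Adj a b := a ≠ b ∧ Hdeg a b = 1 / 2
  symm := ⟨fun a b h => ⟨h.1.symm, by rw [Hdeg_comm]; exact h.2⟩⟩
  loopless := ⟨fun a h => h.1 rfl⟩

theorem edist_le_one {A B : Set ℕ} (h : HD A B ≤ 1 / 2) :
    halfGraph.edist (degOf A) (degOf B) ≤ 1 := by
  rw [SimpleGraph.edist_le_one_iff_adj_or_eq]
  by_cases heq : degOf A = degOf B
  · exact Or.inr heq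
  · left
    refine ⟨heq, ?_⟩
    rw [Hdeg_mk]
    refine le_antisymm h ?_
    by_cases h1 : Red A B
    · have h2 : ¬ Red B A := fun h2 => heq (Quotient.sound (s := degSetoid) ⟨h1, h2⟩)
      rw [HD_comm]
      exact half_le_HD h2
    · exact half_le_HD h1

/-- the upper bound -/
theorem edist_le_three (a b : Deg) : halfGraph.edist a b ≤ 3 := by
  induction a using Quotient.inductionOn with | _ A
  induction b using Quotient.inductionOn with | _ B
  obtain ⟨x, y, h1, h2, h3, h4, h5, h6⟩ := exists_pair A B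
  have e1 : halfGraph.edist (degOf A) (degOf (toSet x)) ≤ 1 := by
    refine edist_le_one (HD_le_half (fun Y hY => ?_) fun Y hY => ?_)
    · obtain ⟨e, he⟩ := exists_cmp hY
      exact ⟨toSet x, Red.refl _, h2 e Y he⟩
    · obtain ⟨e, he⟩ := exists_cmp hY
      exact h1 e Y he
  have e2 : halfGraph.edist (degOf (toSet x)) (degOf (toSet y)) ≤ 1 := by
    refine edist_le_one (HD_le_half (fun Y hY => ?_) fun Y hY => ?_)
    · obtain ⟨e, he⟩ := exists_cmp hY
      exact ⟨toSet y, Red.refl _, h5 e Y he⟩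
    · obtain ⟨e, he⟩ := exists_cmp hY
      exact ⟨toSet x, Red.refl _, h6 e Y he⟩
  have e3 : halfGraph.edist (degOf (toSet y)) (degOf B) ≤ 1 := by
    refine edist_le_one (HD_le_half (fun Y hY => ?_) fun Y hY => ?_)
    · obtain ⟨e, he⟩ := exists_cmp hY
      exact h3 e Y he
    · obtain ⟨e, he⟩ := exists_cmp hY
      exact ⟨toSet y, Red.refl _, h4 e Y he⟩
  calc halfGraph.edist (degOf A) (degOf B) ≤ halfGraph.edist (degOf A) (degOf (toSet x)) +
        halfGraph.edist (degOf (toSet x)) (degOf B) := SimpleGraph.edist_triangle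
    _ ≤ halfGraph.edist (degOf A) (degOf (toSet x)) +
        (halfGraph.edist (degOf (toSet x)) (degOf (toSet y)) +
        halfGraph.edist (degOf (toSet y)) (degOf B)) := by
        gcongr
        exact SimpleGraph.edist_triangle
    _ ≤ 1 + (1 + 1) := by gcongr
    _ = 3 := by norm_num

end Pool.Agent.Helper643.DM
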