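import Pool.Agent.helper643_DM.Graph

/-!
# The lower bound: the degrees of `∅` and of its jump are at distance at least three
-/

set_option autoImplicit false

namespace Pool.Agent.Helper643.DM

open Encodable Pool.Agent.Helper578.JD Pool.Agent.Helper578.JD.Oracle Filter
open Pool.Agent.H454R3.Att (FunIn unif toSet delta upperDensity CoarseSpace cls dist_cls TEqv bd
  bd_succ bd_pos bd_computable bd_lt bd_strictMono bd_unique bd_exists delta_triangle delta_comm
  upperDensity_le_one upperDensity_nonneg frac_nonneg bddU TT Nx lst lst_le lst_next lst_const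
  exists_dead lst_computable Nx_cp TT_cp one_le_delta CC CC_eqv le_upperDensity)

theorem re_of_reIn_empty {α : Type} [Primcodable α] {S : α → Prop} (h : REIn ∅ S) : REPred S := by
  obtain ⟨R, hR, h⟩ := h
  have h1 : REPred fun a => ∃ c : Info, R a c ∧ c.1 = [] := by
    refine RE.ex (p := fun a (c : Info) => R a c ∧ c.1 = []) (RE.and hR ?_)
    exact RE.eq (f := fun x : α × Info => x.2.1) (g := fun _ => []) (by fun_prop) (by fun_prop)
  refine h1.of_eq fun a => ?_
  rw [h]
  refine exists_congr fun c => and_congr_right fun _ => ?_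
  constructor
  · intro h2
    exact ⟨by simp [h2], by simp⟩
  · intro h2
    rw [List.eq_nil_iff_forall_not_mem]
    intro x hx
    exact h2.1 x hx

/-- a set close to the computable sets computes only functions bounded by computable functions -/
theorem bounded_of_HD {C : Set ℕ} (hC : HD ∅ C < 1) {g : ℕ → ℕ} (hg : FunIn C g) :
    ∃ p : ℕ → ℕ, Computable p ∧ ∃ N, ∀ n ≥ N, g n ≤ p n := by
  by_contra hcon
  push Not at hcon
  obtain ⟨a, ha⟩ := RE.wst_univ (RE.const (α := ℕ) False)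
  have ha' : ∀ x : ℕ, x ∈ (∅ : Set ℕ) ↔ ∃ s, RE.wst ℕ a s x = true := fun x => ha x
  rw [HD_comm] at hC
  obtain ⟨D, hD, hd⟩ := exists_of_HD_lt hC (CC_eqv a hg).1
  have h1 := one_le_delta (B := C) ha' hD (g := g) fun f hf N => by
    obtain ⟨n, hn, hn'⟩ := hcon f (RE.computable_of_graph (re_of_reIn_empty hf)) N
    exact ⟨n, hn, hn'⟩
  linarith

/-- `y` is a term of the sequence which belongs to the number `k` -/
def trm (k y : ℕ) : Prop := k ≤ y ∧ lst k.unpair.1 y = y

open Classical in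
/-- the number of the terms below `x` -/
noncomputable def pp (k x : ℕ) : ℕ := ((Finset.range x).filter (trm k)).card

theorem pp_succ_of {k x : ℕ} (h : trm k x) : pp k (x + 1) = pp k x + 1 := by
  classical
  unfold pp
  rw [Finset.range_add_one, Finset.filter_insert, if_pos h, Finset.card_insert_of_notMem (by simp)]

theorem pp_succ_of_not {k x : ℕ} (h : ¬ trm k x) : pp k (x + 1) = pp k x := by
  classical
  unfold pp
  rw [Finset.range_add_one, Finset.filter_insert, if_neg h]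

theorem pp_mono {k x y : ℕ} (h : x ≤ y) : pp k x ≤ pp k y := by
  classical
  unfold pp
  exact Finset.card_le_card (Finset.filter_subset_filter _ (Finset.range_mono h))

theorem dead_const {e x y : ℕ} (hx : lst e x = x) (hd : ∀ s, ¬ Nx e x s) (hxy : x ≤ y) :
    lst e y = x := lst_const hx hxy fun s _ _ => hd s

theorem dead_unique {e x y : ℕ} (hx : lst e x = x) (hd : ∀ s, ¬ Nx e x s) (hy : lst e y = y)
    (hd' : ∀ s, ¬ Nx e y s) : x = y := by
  rcases le_total x y with h | h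
  · rw [← hy, dead_const hx hd h]
  · rw [← hx, dead_const hy hd' h]

theorem pp_dead {k x y : ℕ} (hx : lst k.unpair.1 x = x) (hd : ∀ s, ¬ Nx k.unpair.1 x s) :
    pp k y ≤ pp k x + 1 := by
  rcases le_or_gt y x with h | h
  · exact (pp_mono h).trans (Nat.le_succ _)
  · have h1 : ∀ y, x + 1 ≤ y → pp k y = pp k (x + 1) := by
      intro y hy
      induction y, hy using Nat.le_induction with
      | base => rfl
      | succ y hy ih =>
        rw [pp_succ_of_not, ih]
        rintro ⟨_, h2⟩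
        rw [dead_const hx hd (by omega)] at h2
        omega
    rw [h1 y h]
    by_cases h2 : trm k x
    · rw [pp_succ_of h2]
    · rw [pp_succ_of_not h2]; omega

theorem exists_term {k : ℕ} (hinf : ∀ N, ∃ y, N ≤ y ∧ trm k y) (j : ℕ) :
    ∃ x, trm k x ∧ pp k x = j := by
  have h1 : ∀ j, ∃ x, j ≤ pp k x := by
    intro j
    induction j with
    | zero => exact ⟨0, Nat.zero_le _⟩
    | succ j ih =>
      obtain ⟨x, hx⟩ := ih
      obtain ⟨y, hy, hy'⟩ := hinf x
      refine ⟨y + 1, ?_⟩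
      rw [pp_succ_of hy']
      have := pp_mono (k := k) hy
      omega
  classical
  have h2 := Nat.find_spec (h1 (j + 1))
  have h3 : Nat.find (h1 (j + 1)) ≠ 0 := by
    intro h
    rw [h] at h2
    simp [pp] at h2
  obtain ⟨x, hx⟩ : ∃ x, Nat.find (h1 (j + 1)) = x + 1 := ⟨Nat.find (h1 (j + 1)) - 1, by omega⟩
  rw [hx] at h2
  have h4 := Nat.find_min (h1 (j + 1)) (m := x) (by omega)
  refine ⟨x, ?_⟩
  by_cases h5 : trm k x
  · rw [pp_succ_of h5] at h2
    exact ⟨h5, by omega⟩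
  · rw [pp_succ_of_not h5] at h2
    omega

/-- total functions give infinite sequences -/
theorem infinite_terms {p : ℕ → ℕ} {e : ℕ}
    (he : ∀ x : ℕ × ℕ, p x.1 = x.2 ↔ ∃ s, RE.wst (ℕ × ℕ) e s x = true) :
    ∀ N, ∃ y, N ≤ y ∧ lst e y = y := by
  classical
  have htot : ∀ n, ∃ s, TT e s n := by
    intro n
    have h1 : ∀ k, ∃ s, ∀ i < k, ∃ v, v < s + 1 ∧ RE.wst (ℕ × ℕ) e s (i, v) = true := by
      intro k
      induction k with
      | zero => exact ⟨0, fun i hi => by omega⟩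
      | succ k ih =>
        obtain ⟨s, hs⟩ := ih
        obtain ⟨s', hs'⟩ := (he (k, p k)).1 rfl
        refine ⟨s + s' + p k, fun i hi => ?_⟩
        rcases Nat.lt_succ_iff_lt_or_eq.1 hi with h | rfl
        · obtain ⟨v, hv, hv'⟩ := hs i h
          exact ⟨v, by omega, RE.wst_mono (by omega) hv'⟩
        · exact ⟨p i, by omega, RE.wst_mono (by omega) hs'⟩
    obtain ⟨s, hs⟩ := h1 (n + 1)
    refine ⟨s + n + 1, by omega, fun i hi => ?_⟩
    obtain ⟨v, hv, hv'⟩ := hs i hi
    exact ⟨v, by omega, RE.wst_mono (by omega) hv'⟩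
  have hnx : ∀ n, ∃ s, Nx e n s := fun n =>
    ⟨Nat.find (htot n), Nat.find_spec (htot n), fun t ht => Nat.find_min (htot n) ht⟩
  intro N
  induction N with
  | zero => exact ⟨0, le_rfl, Nat.le_zero.1 (lst_le e 0)⟩
  | succ N ih =>
    obtain ⟨y, hy, hy'⟩ := ih
    obtain ⟨s, hs⟩ := hnx y
    exact ⟨s, by have := hs.lt; omega, lst_next hy' hs⟩

section

variable {α : Type} [Primcodable α] {A : Set ℕ}

theorem trm_dec {k y : α → ℕ} (hk : Computable k) (hy : Computable y) :
    Dec A fun a => trm (k a) (y a) :=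
  Dec.and (Dec.of_cp (RE.cp_le (by fun_prop) (by fun_prop)))
    (Dec.of_cp (RE.cp_eq (lst_computable.comp (g := fun a => ((k a).unpair.1, y a))
      (by fun_prop)) (by fun_prop)))

theorem pp_fi {k x : α → ℕ} (hk : Computable k) (hx : Computable x) :
    FI A fun a => pp (k a) (x a) :=
  FI.card (S := fun a y => trm (k a) y) (trm_dec (k := fun p : α × ℕ => k p.1)
    (y := fun p => p.2) (by fun_prop) (by fun_prop)) hx

theorem clen : Computable len := by
  have hbdc : ∀ {α : Type} [Primcodable α] {f : α → ℕ}, Computable f →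
      Computable fun x => bd (f x) := fun hf => bd_computable.comp hf
  have h2 : Computable fun k : ℕ => bd (k + 1) - bd k :=
    RE.csub (hbdc (by fun_prop)) (hbdc (by fun_prop))
  exact h2

theorem cbd {f : α → ℕ} (hf : Computable f) : Computable fun x => bd (f x) :=
  bd_computable.comp hf

theorem clen' {f : α → ℕ} (hf : Computable f) : Computable fun x => len (f x) :=
  clen.comp hf

attribute [local fun_prop] cbd clen'

/-- the sequence of the number `k` stops at `x` -/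
def Dead (k x : ℕ) : Prop := lst k.unpair.1 x = x ∧ ∀ s, ¬ Nx k.unpair.1 x s

theorem dead_re : REIn (jump ∅) fun p : ℕ × ℕ => Dead p.1 p.2 := by
  refine REIn.and (REIn.of_re (RE.eq ?_ (by fun_prop))) ?_
  · exact lst_computable.comp (g := fun p : ℕ × ℕ => (p.1.unpair.1, p.2)) (by fun_prop)
  · have h1 : REPred fun p : ℕ × ℕ => ∃ s, Nx p.1.unpair.1 p.2 s :=
      RE.exN (p := fun (p : ℕ × ℕ) s => Nx p.1.unpair.1 p.2 s)
        (RE.cp_comp Nx_cp (f := fun x : (ℕ × ℕ) × ℕ => (x.1.1.unpair.1, x.1.2, x.2))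
          (by fun_prop)).to_re
    obtain ⟨f, hf, h2⟩ := REIn_iff_jump.1 (REIn.of_re (A := ∅) h1)
    refine (REIn.not_mem (f := f) hf).of_eq fun p => ?_
    rw [← h2]
    push Not
    exact Iff.rfl

/-- the value of the difficult function at `k` may be `v` -/
def S0 (k v : ℕ) : Prop := (∃ x, Dead k x ∧ k ≤ x ∧ pp k x = v ∧ v < 2 ^ len k) ∨
  (∃ x, 2 ^ len k < pp k x) ∨ ∃ x, Dead k x ∧ x < k

theorem S0_re : REIn (jump ∅) fun p : ℕ × ℕ => S0 p.1 p.2 := by
  refine REIn.or ?_ (REIn.or ?_ ?_)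
  · refine REIn.ex (S := fun (p : ℕ × ℕ) (x : ℕ) => Dead p.1 x ∧ p.1 ≤ x ∧ pp p.1 x = p.2 ∧
      p.2 < 2 ^ len p.1) (REIn.and ?_ (REIn.and ?_ (REIn.and ?_ ?_)))
    · exact dead_re.comp (f := fun x : (ℕ × ℕ) × ℕ => (x.1.1, x.2)) (by fun_prop)
    · exact REIn.of_re (RE.le (by fun_prop) (by fun_prop))
    · exact (pp_fi (k := fun x : (ℕ × ℕ) × ℕ => x.1.1) (x := fun x => x.2) (by fun_prop)
        (by fun_prop)).re (S := fun x v => v = x.1.2) (REIn.of_re (RE.eq (by fun_prop)
        (by fun_prop)))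
    · exact REIn.of_re (RE.lt (by fun_prop) (by fun_prop))
  · refine REIn.ex (S := fun (p : ℕ × ℕ) (x : ℕ) => 2 ^ len p.1 < pp p.1 x) ?_
    exact (pp_fi (k := fun x : (ℕ × ℕ) × ℕ => x.1.1) (x := fun x => x.2) (by fun_prop)
      (by fun_prop)).re (S := fun x v => 2 ^ len x.1.1 < v) (REIn.of_re (RE.lt (by fun_prop)
      (by fun_prop)))
  · refine REIn.ex (S := fun (p : ℕ × ℕ) (x : ℕ) => Dead p.1 x ∧ x < p.1) (REIn.and ?_ ?_)
    · exact dead_re.comp (f := fun x : (ℕ × ℕ) × ℕ => (x.1.1, x.2)) (by fun_prop)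
    · exact REIn.of_re (RE.lt (by fun_prop) (by fun_prop))

theorem S0_total (k : ℕ) : ∃ v, S0 k v := by
  by_cases h1 : ∃ x, Dead k x
  · obtain ⟨x, hx⟩ := h1
    rcases Nat.lt_or_ge x k with h2 | h2
    · exact ⟨0, Or.inr (Or.inr ⟨x, hx, h2⟩)⟩
    · rcases Nat.lt_or_ge (pp k x) (2 ^ len k) with h3 | h3
      · exact ⟨pp k x, Or.inl ⟨x, hx, h2, rfl, h3⟩⟩
      · refine ⟨0, Or.inr (Or.inl ⟨x + 1, ?_⟩)⟩
        rw [pp_succ_of ⟨h2, hx.1⟩]
        omega
  · have hinf : ∀ N, ∃ y, N ≤ y ∧ lst k.unpair.1 y = y := by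
      intro N
      induction N with
      | zero => exact ⟨0, le_rfl, Nat.le_zero.1 (lst_le _ 0)⟩
      | succ N ih =>
        obtain ⟨y, hy, hy'⟩ := ih
        have h2 : ∃ s, Nx k.unpair.1 y s := by
          by_contra hcon
          push Not at hcon
          exact h1 ⟨y, hy', hcon⟩
        obtain ⟨s, hs⟩ := h2
        exact ⟨s, by have := hs.lt; omega, lst_next hy' hs⟩
    obtain ⟨x, hx, hx'⟩ := exists_term (k := k) (fun N => by
      obtain ⟨y, hy, hy'⟩ := hinf (max N k)
      exact ⟨y, by omega, by omega, hy'⟩) (2 ^ len k)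
    refine ⟨0, Or.inr (Or.inl ⟨x + 1, ?_⟩)⟩
    rw [pp_succ_of hx]
    omega

/-- the set below the jump -/
def YY (f : ℕ → ℕ) : Set ℕ :=
  {x | ∃ k, (bd k ≤ x ∧ x < bd (k + 1)) ∧ (f k).testBit (x - bd k) = false}

theorem YY_red {f : ℕ → ℕ} (hf : FunIn A f) : Red (YY f) A := by
  have key : ∀ c : Bool, REIn A fun n : ℕ => ∃ k : ℕ, (bd k ≤ n ∧ n < bd (k + 1)) ∧
      (f k).testBit (n - bd k) = c := by
    intro c
    refine REIn.ex (S := fun (n k : ℕ) => (bd k ≤ n ∧ n < bd (k + 1)) ∧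
      (f k).testBit (n - bd k) = c) (REIn.and ?_ ?_)
    · exact REIn.of_re (RE.and (RE.le (by fun_prop) (by fun_prop))
        (RE.lt (by fun_prop) (by fun_prop)))
    · have h1 : FI A fun x : ℕ × ℕ => f x.2 := FI.comp (F := f) hf (by fun_prop)
      exact h1.re (S := fun x v => v.testBit (x.1 - bd x.2) = c)
        (REIn.of_re (RE.eq (by fun_prop) (by fun_prop)))
  rw [Red_iff]
  refine ⟨(key false).of_eq fun n => Iff.rfl, ?_⟩
  have h1 : REIn A fun n : ℕ => n < 1 ∨ ∃ k : ℕ, (bd k ≤ n ∧ n < bd (k + 1)) ∧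
      (f k).testBit (n - bd k) = true :=
    REIn.or (REIn.of_re (RE.lt (by fun_prop) (by fun_prop))) (key true)
  refine h1.of_eq fun n => ?_
  constructor
  · rintro (h | ⟨m, h1, h2⟩) ⟨m', h3, h4⟩
    · have := bd_pos m'
      omega
    · obtain rfl := bd_unique h1.1 h1.2 h3.1 h3.2
      rw [h2] at h4
      exact absurd h4 (by simp)
  · intro h
    rcases Nat.lt_or_ge n 1 with h1 | h1
    · exact Or.inl h1
    · obtain ⟨m, h1, h2⟩ := bd_exists h1
      refine Or.inr ⟨m, ⟨h1, h2⟩, ?_⟩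
      by_contra hcon
      exact h ⟨m, ⟨h1, h2⟩, by simpa using hcon⟩

theorem mem_YY {f : ℕ → ℕ} {k i : ℕ} (hi : i < len k) :
    bd k + i ∈ YY f ↔ (f k).testBit i = false := by
  have h0 := bd_len k
  constructor
  · rintro ⟨l, hl, h⟩
    obtain rfl := bd_unique (show bd k ≤ bd k + i by omega) (by omega) hl.1 hl.2
    simpa using h
  · intro h
    exact ⟨k, ⟨by omega, by omega⟩, by simpa using h⟩

/-- the number `v` codes the part of `Z` on the block number `k` -/
def GG (Z : Set ℕ) (k v : ℕ) : Prop :=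
  v < 2 ^ len k ∧ ∀ i < len k, (v.testBit i = true ↔ bd k + i ∈ Z)

theorem GG_unique {Z : Set ℕ} {k v w : ℕ} (h : GG Z k v) (h' : GG Z k w) : v = w := by
  apply Nat.eq_of_testBit_eq
  intro i
  rcases Nat.lt_or_ge i (len k) with h1 | h1
  · have h2 := (h.2 i h1).trans (h'.2 i h1).symm
    cases hv : v.testBit i <;> cases hw : w.testBit i <;> simp_all
  · have h2 : 2 ^ len k ≤ 2 ^ i := Nat.pow_le_pow_right (by norm_num) h1
    rw [Nat.testBit_lt_two_pow (lt_of_lt_of_le h.1 h2),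
      Nat.testBit_lt_two_pow (lt_of_lt_of_le h'.1 h2)]

theorem GG_exists (Z : Set ℕ) (k : ℕ) : ∃ v, GG Z k v := by
  refine ⟨pre (fun i => ch Z (bd k + i)) (len k), pre_lt _ _, fun i hi => ?_⟩
  rw [pre_testBit, ← ch_eq_true]
  simp [hi]

theorem GG_dec {Z : Set ℕ} (hZ : Red Z A) : Dec A fun p : ℕ × ℕ => GG Z p.1 p.2 := by
  have h1 : Dec A fun n : ℕ => n ∈ Z := Red_iff.1 hZ
  refine Dec.and (Dec.of_cp (RE.cp_lt (by fun_prop) (by fun_prop))) ?_
  refine Dec.all_lt (S := fun (p : ℕ × ℕ) i => (p.2.testBit i = true ↔ bd p.1 + i ∈ Z))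
    (f := fun p => len p.1) ?_ (by fun_prop)
  have h2 : Dec A fun x : (ℕ × ℕ) × ℕ => x.1.2.testBit x.2 = true :=
    Dec.of_cp (cpdec (by fun_prop))
  have h3 : Dec A fun x : (ℕ × ℕ) × ℕ => bd x.1.1 + x.2 ∈ Z :=
    h1.comp (f := fun x : (ℕ × ℕ) × ℕ => bd x.1.1 + x.2) (by fun_prop)
  exact (Dec.and (Dec.imp h2 h3) (Dec.imp h3 h2)).of_eq fun x => iff_def.symm

theorem agree_often {C Z : Set ℕ} (hC : ∀ g : ℕ → ℕ, FunIn C g →
    ∃ p : ℕ → ℕ, Computable p ∧ ∃ N, ∀ n ≥ N, g n ≤ p n) (hZ : Red Z C) {f : ℕ → ℕ}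
    (hf : ∀ k, S0 k (f k)) (K : ℕ) : ∃ k ≥ K, GG Z k (f k) := by
  by_contra hcon
  push Not at hcon
  let S' : ℕ → ℕ → Prop := fun x s => ∀ k < x + 1, (K ≤ k ∧ trm k x ∧ GG Z k (pp k x)) →
    ∃ s' < s + 1, Nx k.unpair.1 x s'
  have hS' : Dec C fun p : ℕ × ℕ => S' p.1 p.2 := by
    refine Dec.all_lt (S := fun (p : ℕ × ℕ) k => (K ≤ k ∧ trm k p.1 ∧ GG Z k (pp k p.1)) →
      ∃ s' < p.2 + 1, Nx k.unpair.1 p.1 s') (f := fun p => p.1 + 1)
      (Dec.imp (Dec.and ?_ (Dec.and ?_ ?_)) ?_) (by fun_prop)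
    · exact Dec.of_cp (RE.cp_le (by fun_prop) (by fun_prop))
    · exact trm_dec (k := fun x : (ℕ × ℕ) × ℕ => x.2) (y := fun x => x.1.1) (by fun_prop)
        (by fun_prop)
    · exact (pp_fi (k := fun x : (ℕ × ℕ) × ℕ => x.2) (x := fun x => x.1.1) (by fun_prop)
        (by fun_prop)).dec (S := fun x v => GG Z x.2 v)
        ((GG_dec hZ).comp (f := fun x : ((ℕ × ℕ) × ℕ) × ℕ => (x.1.2, x.2)) (by fun_prop))
    · exact Dec.ex_lt (S := fun (x : (ℕ × ℕ) × ℕ) s' => Nx x.2.unpair.1 x.1.1 s')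
        (f := fun x => x.1.2 + 1) (Dec.of_cp (RE.cp_comp Nx_cp
        (f := fun x : ((ℕ × ℕ) × ℕ) × ℕ => (x.1.2.unpair.1, x.1.1.1, x.2)) (by fun_prop)))
        (by fun_prop)
  have hnext : ∀ k x, K ≤ k → trm k x → GG Z k (pp k x) → ∃ s, Nx k.unpair.1 x s := by
    intro k x hk hx hG
    by_contra hno
    push Not at hno
    rcases hf k with ⟨x', hd, _, h2, _⟩ | ⟨x', h1⟩ | ⟨x', hd, h1⟩
    · have h3 := dead_unique hd.1 hd.2 hx.2 hno
      rw [h3] at h2
      rw [h2] at hG
      exact hcon k hk hG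
    · have h2 := pp_dead (y := x') hx.2 hno
      have h3 := hG.1
      omega
    · have h3 := dead_unique hd.1 hd.2 hx.2 hno
      have h4 := hx.1
      omega
  have hex : ∀ x, ∃ s, S' x s := by
    intro x
    have h1 : ∀ n, ∃ s, ∀ k < n, (K ≤ k ∧ trm k x ∧ GG Z k (pp k x)) →
        ∃ s' < s + 1, Nx k.unpair.1 x s' := by
      intro n
      induction n with
      | zero => exact ⟨0, fun k hk => by omega⟩
      | succ n ih =>
        obtain ⟨s, hs⟩ := ih
        by_cases h2 : K ≤ n ∧ trm n x ∧ GG Z n (pp n x)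
        · obtain ⟨s', hs'⟩ := hnext n x h2.1 h2.2.1 h2.2.2
          refine ⟨max s s', fun k hk h3 => ?_⟩
          rcases Nat.lt_succ_iff_lt_or_eq.1 hk with h4 | rfl
          · obtain ⟨t, ht, ht'⟩ := hs k h4 h3
            exact ⟨t, by omega, ht'⟩
          · exact ⟨s', by omega, hs'⟩
        · refine ⟨s, fun k hk h3 => ?_⟩
          rcases Nat.lt_succ_iff_lt_or_eq.1 hk with h4 | rfl
          · exact hs k h4 h3
          · exact absurd h3 h2
    exact h1 (x + 1)
  obtain ⟨ψ, hψ, hψS⟩ := unif hS'.1 hex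
  obtain ⟨p, hp, N, hN⟩ := hC ψ hψ
  obtain ⟨e, he⟩ := RE.wst_univ (RE.eq (f := fun x : ℕ × ℕ => p x.1 + 1) (g := fun x => x.2)
    (by fun_prop) (by fun_prop))
  have hinf := infinite_terms (p := fun n => p n + 1) he
  set k := Nat.pair e (max K N) with hk
  have hk1 : max K N ≤ k := Nat.right_le_pair _ _
  have hke : k.unpair.1 = e := by rw [hk, Nat.unpair_pair]
  obtain ⟨v, hv⟩ := GG_exists Z k
  obtain ⟨x, hx1, hx2⟩ := exists_term (k := k) (fun M => by
    obtain ⟨y, hy, hy'⟩ := hinf (max M k)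
    exact ⟨y, by omega, by omega, by rw [hke]; exact hy'⟩) v
  have hkx := hx1.1
  obtain ⟨s', hs', hNx⟩ := hψS x k (by omega) ⟨by omega, hx1, by rw [hx2]; exact hv⟩
  rw [hke] at hNx
  obtain ⟨w, hw, hw'⟩ := hNx.1.2 x (by omega)
  have h1 : p x + 1 = w := (he (x, w)).2 ⟨_, hw'⟩
  have h2 := hN x (by omega)
  omega

end

/-- the jump of the empty set computes a set which is at distance one from all sets below `C` -/
theorem far_from_jump {C : Set ℕ} (hC : HD ∅ C < 1) : 1 ≤ HD C (jump ∅) := by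
  by_contra hcon
  push Not at hcon
  rw [HD_comm] at hcon
  obtain ⟨f, hf, hfS⟩ := unif S0_re S0_total
  obtain ⟨Z, hZ, hd⟩ := exists_of_HD_lt hcon (YY_red hf)
  have hoft := agree_often (C := C) (Z := Z) (fun g hg => bounded_of_HD hC hg) hZ hfS
  have h1 : 1 ≤ delta (YY f) Z := by
    refine le_of_forall_pos_le_add fun ε hε => ?_
    have key : ∃ᶠ m : ℕ in atTop,
        1 - ε ≤ ((symmDiff (YY f) Z ∩ Set.Iio m).ncard : ℝ) / m := by
      rw [frequently_atTop]
      intro N
      obtain ⟨M, hM⟩ := exists_nat_gt (1 / ε)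
      obtain ⟨k, hk, hG⟩ := hoft (max N M)
      have h2 : dis (len k) (fun i => ch (YY f) (bd k + i)) (fun i => ch Z (bd k + i)) = len k := by
        unfold dis
        rw [Finset.filter_true_of_mem, Finset.card_range]
        intro i hi
        rw [Finset.mem_range] at hi
        have h3 := hG.2 i hi
        have h4 := mem_YY (f := f) hi
        rw [← ch_eq_true] at h3 h4
        cases hc : ch (YY f) (bd k + i) <;> cases hz : ch Z (bd k + i) <;> simp_all
      refine ⟨bd (k + 1), ?_, ?_⟩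
      · have := bd_strictMono.id_le (k + 1)
        simp only [id] at this
        omega
      · rw [ncard_eq_dis, ← bd_len, dis_add, h2]
        have h3 : (0 : ℝ) < ((bd k + len k : ℕ) : ℝ) := by
          have := bd_pos k
          exact_mod_cast (by omega : 0 < bd k + len k)
        rw [le_div_iff₀ h3]
        push_cast
        have h5 : bd k + len k = (k + 2) * bd k := by rw [bd_len, bd_succ]
        have h6 : (bd k : ℝ) + len k = (k + 2) * bd k := by exact_mod_cast h5
        have h7 : (0 : ℝ) < bd k := by exact_mod_cast bd_pos k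
        have h8 : (0 : ℝ) ≤ (dis (bd k) (ch (YY f)) (ch Z) : ℝ) := Nat.cast_nonneg _
        have h9 : (M : ℝ) ≤ k := by
          have : M ≤ k := by omega
          exact_mod_cast this
        have h10 : 1 < ε * k := by
          rw [div_lt_iff₀ hε] at hM
          nlinarith
        rw [h6]
        nlinarith
    have := le_upperDensity key
    unfold delta
    linarith
  linarith

theorem HD_self (A : Set ℕ) : HD A A = 0 := Metric.hausdorffDist_self_zero

/-- the lower bound -/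
theorem two_lt_edist : 2 < halfGraph.edist (degOf ∅) (degOf (jump ∅)) := by
  have h1 : 1 ≤ HD ∅ (jump ∅) := far_from_jump (C := ∅) (by rw [HD_self]; norm_num)
  rw [SimpleGraph.two_lt_edist_iff]
  refine ⟨fun h => ?_, fun h => ?_, ?_⟩
  · have h2 : HD ∅ (jump ∅) = 0 := by
      rw [← Hdeg_mk, ← h, Hdeg_mk, HD_self]
    rw [h2] at h1
    norm_num at h1
  · have h2 : HD ∅ (jump ∅) = 1 / 2 := by
      rw [← Hdeg_mk]
      exact h.2
    rw [h2] at h1
    norm_num at h1
  · rw [Set.eq_empty_iff_forall_notMem]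
    intro w
    induction w using Quotient.inductionOn with | _ C
    rintro ⟨h2, h3⟩
    have h4 : HD ∅ C = 1 / 2 := h2.2
    have h5 : HD (jump ∅) C = 1 / 2 := h3.2
    have h6 := far_from_jump (C := C) (by rw [h4]; norm_num)
    rw [HD_comm, h5] at h6
    norm_num at h6

/-- the diameter is three -/
theorem ediam_eq : halfGraph.ediam = 3 := by
  refine le_antisymm (SimpleGraph.ediam_le_iff.2 edist_le_three) ?_
  have h1 := lt_of_lt_of_le two_lt_edist (SimpleGraph.edist_le_ediam (G := halfGraph))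
  have h2 := Order.add_one_le_of_lt h1
  calc (3 : ℕ∞) = 2 + 1 := by norm_num
    _ ≤ _ := h2

end Pool.Agent.Helper643.DM
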