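import Pool.Agent.helper643_DM.Step

/-!
# The construction of the pair
-/

set_option autoImplicit false

namespace Pool.Agent.Helper643.DM

open Encodable Pool.Agent.Helper578.JD Pool.Agent.Helper578.JD.Oracle
open Pool.Agent.H454R3.Att (FunIn unif toSet delta)

/-- a block of a set computed from the first sequence by a functional differs too much from the
second sequence -/
def vv (l j k : ℕ) : Prop := ∃ e < l + 1, ∃ m < l + 1, (2 ^ (e + 5) ≤ m ∧ bb (m + 1) ≤ l) ∧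
  ∃ s < l + 1, (TB e m s (j % 2 ^ s) ∧ ∀ s' < s, ¬ TB e m s' (j % 2 ^ s')) ∧
    bad m (ansF e m s (j % 2 ^ s)) (fun i => k.testBit (bb m + i))

/-- the symmetric version -/
def uu (l j k : ℕ) : Prop := vv l j k ∨ vv l k j

theorem uu_symm {l j k : ℕ} : uu l k j ↔ uu l j k := or_comm

theorem vv_dec {α : Type} [Primcodable α] {A : Set ℕ} {l j k : α → ℕ} (hl : Computable l)
    (hj : Computable j) (hk : Computable k) : Dec A fun a => vv (l a) (j a) (k a) := by
  refine Dec.ex_lt (S := fun a e => ∃ m < l a + 1, (2 ^ (e + 5) ≤ m ∧ bb (m + 1) ≤ l a) ∧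
    ∃ s < l a + 1, (TB e m s (j a % 2 ^ s) ∧ ∀ s' < s, ¬ TB e m s' (j a % 2 ^ s')) ∧
    bad m (ansF e m s (j a % 2 ^ s)) (fun i => (k a).testBit (bb m + i)))
    (f := fun a => l a + 1) ?_ (by fun_prop)
  refine Dec.ex_lt (S := fun (x : α × ℕ) m => (2 ^ (x.2 + 5) ≤ m ∧ bb (m + 1) ≤ l x.1) ∧
    ∃ s < l x.1 + 1, (TB x.2 m s (j x.1 % 2 ^ s) ∧ ∀ s' < s, ¬ TB x.2 m s' (j x.1 % 2 ^ s')) ∧
    bad m (ansF x.2 m s (j x.1 % 2 ^ s)) (fun i => (k x.1).testBit (bb m + i)))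
    (f := fun x => l x.1 + 1) (Dec.and (Dec.and ?_ ?_) ?_) (by fun_prop)
  · exact Dec.of_cp (RE.cp_le (by fun_prop) (by fun_prop))
  · exact Dec.of_cp (RE.cp_le (by fun_prop) (by fun_prop))
  refine Dec.ex_lt (S := fun (x : (α × ℕ) × ℕ) s => (TB x.1.2 x.2 s (j x.1.1 % 2 ^ s) ∧
    ∀ s' < s, ¬ TB x.1.2 x.2 s' (j x.1.1 % 2 ^ s')) ∧
    bad x.2 (ansF x.1.2 x.2 s (j x.1.1 % 2 ^ s)) (fun i => (k x.1.1).testBit (bb x.2 + i)))
    (f := fun x => l x.1.1 + 1) (Dec.and (Dec.and ?_ ?_) ?_) (by fun_prop)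
  · exact TB_dec (by fun_prop) (by fun_prop) (by fun_prop) (by fun_prop)
  · exact Dec.all_lt (S := fun (x : ((α × ℕ) × ℕ) × ℕ) s' =>
      ¬ TB x.1.1.2 x.1.2 s' (j x.1.1.1 % 2 ^ s')) (f := fun x => x.2)
      (TB_dec (by fun_prop) (by fun_prop) (by fun_prop) (by fun_prop)).not (by fun_prop)
  · refine bad_dec (F := fun (x : ((α × ℕ) × ℕ) × ℕ) => ansF x.1.1.2 x.1.2 x.2
      (j x.1.1.1 % 2 ^ x.2)) (G := fun x i => (k x.1.1.1).testBit (bb x.1.2 + i))
      (m := fun x => x.1.2) ?_ ?_ (by fun_prop)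
    · exact ansF_dec (e := fun x : (((α × ℕ) × ℕ) × ℕ) × ℕ => x.1.1.1.2) (m := fun x => x.1.1.2)
        (s := fun x => x.1.2) (k := fun x => j x.1.1.1.1 % 2 ^ x.1.2) (i := fun x => x.2)
        (by fun_prop) (by fun_prop) (by fun_prop) (by fun_prop) (by fun_prop)
    · exact Dec.of_cp (cpdec (f := fun x : (((α × ℕ) × ℕ) × ℕ) × ℕ =>
        (k x.1.1.1.1).testBit (bb x.1.1.2 + x.2)) (by fun_prop))

theorem uu_dec' (A : Set ℕ) : DecU A uu :=
  Dec.or (vv_dec (by fun_prop) (by fun_prop) (by fun_prop))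
    (vv_dec (by fun_prop) (by fun_prop) (by fun_prop))

theorem vv_mono {s j k : ℕ} (h : UU vv s j k) : vv s j k := by
  obtain ⟨l, hl, e, he, m, hm, ⟨h1, h2⟩, s', hs', ⟨h3, h4⟩, h5⟩ := h
  rw [mod_mod (by omega)] at h3 h5
  refine ⟨e, by omega, m, by omega, ⟨h1, by omega⟩, s', by omega, ⟨h3, fun s'' hs'' => ?_⟩, ?_⟩
  · have := h4 s'' hs''
    rwa [mod_mod (by omega)] at this
  · refine (bad_congr (fun _ _ => rfl) fun i hi => ?_).1 h5
    have h9 : bb m + i < l := by rw [bb_succ] at h2; omega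
    rw [Nat.testBit_mod_two_pow]
    simp [h9]

theorem geom_bound {C : ℕ} {c : ℕ → ℕ} (h : ∀ e, 2 ^ (e + 4) * c e ≤ C) (n : ℕ) :
    8 * ∑ e ∈ Finset.range n, c e ≤ C := by
  have h1 : ∀ n : ℕ, 2 ^ n * (8 * ∑ e ∈ Finset.range n, c e) + C ≤ 2 ^ n * C := by
    intro n
    induction n with
    | zero => simp
    | succ n ih =>
      rw [Finset.sum_range_succ]
      have h2 := h n
      have h3 : 2 ^ (n + 4) = 2 ^ n * 16 := by rw [pow_add]; norm_num
      rw [h3] at h2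
      rw [pow_succ]
      nlinarith
  have h2 := h1 n
  exact Nat.le_of_mul_le_mul_left (show 2 ^ n * (8 * ∑ e ∈ Finset.range n, c e) ≤ 2 ^ n * C by
    omega) (by positivity)

theorem vv_count (s j : ℕ) : 8 * cnt s (vv s j) ≤ 2 ^ s := by
  classical
  let W : ℕ → ℕ → ℕ → Prop := fun e m k => bb (m + 1) ≤ s ∧
    ∃ s' < s + 1, (TB e m s' (j % 2 ^ s') ∧ ∀ s'' < s', ¬ TB e m s'' (j % 2 ^ s'')) ∧
    bad m (ansF e m s' (j % 2 ^ s')) (fun i => k.testBit (bb m + i))
  have h1 : cnt s (vv s j) ≤ ∑ e ∈ Finset.range (s + 1),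
      cnt s (fun k => ∃ m, 2 ^ (e + 5) ≤ m ∧ m < s + 1 ∧ W e m k) := by
    refine le_trans (cnt_mono fun k _ => ?_) (cnt_exists s (Finset.range (s + 1))
      (fun e k => ∃ m, 2 ^ (e + 5) ≤ m ∧ m < s + 1 ∧ W e m k))
    rintro ⟨e, he, m, hm, ⟨h1, h2⟩, h3⟩
    exact ⟨e, Finset.mem_range.2 he, m, h1, hm, h2, h3⟩
  refine (Nat.mul_le_mul_left 8 h1).trans (geom_bound (fun e => ?_) (s + 1))
  have h2 : 2 ^ (e + 5) * cnt s (fun k => ∃ m, 2 ^ (e + 5) ≤ m ∧ m < s + 1 ∧ W e m k) ≤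
      2 * 2 ^ s := by
    refine cnt_union (by positivity) s (s + 1) fun m _ => ?_
    by_cases h3 : bb (m + 1) ≤ s ∧ ∃ s' < s + 1,
        (TB e m s' (j % 2 ^ s') ∧ ∀ s'' < s', ¬ TB e m s'' (j % 2 ^ s''))
    · obtain ⟨h4, s', hs', h5, h6⟩ := h3
      have h7 : cnt s (W e m) ≤ cnt s (fun k => bad m (ansF e m s' (j % 2 ^ s'))
          (fun i => k.testBit (bb m + i))) := by
        refine cnt_mono fun k _ => ?_
        rintro ⟨_, s1, _, ⟨h8, h9⟩, h10⟩
        have h11 : s1 = s' := by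
          rcases lt_trichotomy s1 s' with h | h | h
          · exact absurd h8 (h6 s1 h)
          · exact h
          · exact absurd h5 (h9 s' h)
        rw [h11] at h10
        exact h10
      rw [mul_comm]
      exact (Nat.mul_le_mul_right _ h7).trans (block_count h4 _)
    · have h6 : cnt s (W e m) ≤ cnt s (fun _ => False) := cnt_mono fun k _ h => h3
        ⟨h.1, h.2.choose, h.2.choose_spec.1, h.2.choose_spec.2.1⟩
      have h7 : cnt s (fun _ => False) = 0 := by simp [cnt]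
      rw [h7] at h6
      have : cnt s (W e m) = 0 := by omega
      rw [this]
      simp
  set C2 := cnt s (fun k => ∃ m, 2 ^ (e + 5) ≤ m ∧ m < s + 1 ∧ W e m k)
  clear_value C2
  have h3 : 2 ^ (e + 5) = 2 * 2 ^ (e + 4) := by rw [← pow_succ']
  rw [h3, mul_assoc] at h2
  exact Nat.le_of_mul_le_mul_left h2 (by norm_num)

theorem pos_top : Pos (fun _ _ => True) (fun _ _ => True) uu := by
  refine ⟨2, fun s _ => ?_⟩
  have h1 : pc s (fun _ _ => True) ≤ pc s (EE (fun _ _ => True) (fun _ _ => True) uu s) +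
      (pc s (vv s) + pc s (fun j k => vv s k j)) := by
    refine le_trans ?_ ((pc_or s _ _).trans (Nat.add_le_add_left (pc_or s _ _) _))
    refine pc_mono fun j _ k _ _ => ?_
    by_cases h : UU uu s j k
    · right
      obtain ⟨l, hl, h1 | h1⟩ := h
      · exact Or.inl (vv_mono ⟨l, hl, h1⟩)
      · exact Or.inr (vv_mono ⟨l, hl, h1⟩)
    · exact Or.inl ⟨fun _ _ => trivial, fun _ _ => trivial, h⟩
  have hsw : pc s (fun j k => vv s k j) = pc s (vv s) := pc_swap s (vv s)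
  rw [hsw] at h1
  have h2 : 8 * pc s (vv s) ≤ 2 ^ s * 2 ^ s := by
    unfold pc
    rw [Finset.mul_sum]
    calc ∑ j ∈ Finset.range (2 ^ s), 8 * cnt s (vv s j) ≤
        ∑ j ∈ Finset.range (2 ^ s), 2 ^ s := Finset.sum_le_sum fun j _ => vv_count s j
      _ = 2 ^ s * 2 ^ s := by simp
  have h3 : pc s (fun _ _ => True) = 2 ^ s * 2 ^ s := by simp [pc, cnt]
  rw [h3] at h1
  rw [four_pow]
  omega

theorem Pos.swap {P Q : ℕ → ℕ → Prop} (h : Pos P Q uu) : Pos Q P uu := by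
  obtain ⟨c, hc⟩ := h
  refine ⟨c, fun s hs => ?_⟩
  have h1 : pc s (EE Q P uu s) = pc s (EE P Q uu s) := by
    rw [← pc_swap s (EE P Q uu s)]
    refine pc_congr fun j _ k _ => ?_
    unfold EE UU
    have h2 : ∀ l, uu l (j % 2 ^ l) (k % 2 ^ l) ↔ uu l (k % 2 ^ l) (j % 2 ^ l) :=
      fun l => uu_symm
    simp only [h2]
    tauto
  rw [h1]
  exact hc s hs

/-- what the pair of sequences satisfies outside of `U` -/
theorem vv_prop {x y : ℕ → Bool} (hU : ∀ l, ¬ vv l (pre x l) (pre y l)) {e : ℕ} {Y : Set ℕ}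
    (hY : Cmp e (toSet x) Y) : delta Y (toSet y) ≤ 1 / 2 := by
  classical
  refine delta_le_half (2 ^ (e + 5)) fun m hm => ?_
  have hex := hY.TB m
  have h1 := Nat.find_spec hex
  have h2 : ∀ s' < Nat.find hex, ¬ TB e m s' (pre x s') := fun s' hs' => Nat.find_min hex hs'
  set s := Nat.find hex
  clear_value s
  set l := max (max s m) (max e (bb (m + 1))) with hl
  have h3 := hU l
  intro hbad
  apply h3
  refine ⟨e, by omega, m, by omega, ⟨hm, by omega⟩, s, by omega, ⟨?_, fun s' hs' => ?_⟩, ?_⟩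
  · rw [pre_mod x (by omega)]
    exact h1
  · rw [pre_mod x (by omega)]
    exact h2 s' hs'
  · rw [pre_mod x (by omega)]
    refine (bad_congr (fun i hi => (hY.ansF h1 hi).symm) fun i hi => ?_).1 hbad
    have h4 : bb m + i < l := by rw [bb_succ] at hl; omega
    rw [pre_testBit]
    have h5 := ch_eq_true (Y := toSet y) (n := bb m + i)
    have h6 : bb m + i ∈ toSet y ↔ y (bb m + i) = true := Iff.rfl
    rw [h6] at h5
    cases hc : ch (toSet y) (bb m + i) <;> cases hz : y (bb m + i) <;> simp_all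

/-! ### the construction -/

/-- the conditions -/
structure Cond (A B : Set ℕ) where
  P : ℕ → ℕ → Prop
  Q : ℕ → ℕ → Prop
  hP : DecT A P
  hQ : DecT B Q
  pos : Pos P Q uu

/-- the requirement number `e` for the tree `P` and the set `A` -/
def Req (A : Set ℕ) (P : ℕ → ℕ → Prop) (e : ℕ) : Prop :=
  ∀ x : ℕ → Bool, (∀ l, P l (pre x l)) →
    (∀ Y, Cmp e (toSet x) Y → ∃ Z, Red Z A ∧ delta Y Z ≤ 1 / 2) ∧
    (∀ Y, Cmp e A Y → delta Y (toSet x) ≤ 1 / 2)

theorem step12 {A : Set ℕ} {P Q : ℕ → ℕ → Prop} (hP : DecT A P) (hpos : Pos P Q uu) (e : ℕ) :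
    ∃ P' : ℕ → ℕ → Prop, DecT A P' ∧ (∀ l k, P' l k → P l k) ∧ Pos P' Q uu ∧ Req A P' e := by
  obtain ⟨P1, h1, h2, h3, h4⟩ := step1 hP (uu_dec' A) hpos e
  obtain ⟨P2, h5, h6, h7, h8⟩ := step2 h1 h3 e
  exact ⟨P2, h5, fun l k h => h2 l k (h6 l k h), h7, fun x hx =>
    ⟨h4 x fun l => h6 _ _ (hx l), h8 x hx⟩⟩

theorem step_all {A B : Set ℕ} (c : Cond A B) (e : ℕ) : ∃ c' : Cond A B,
    (∀ l k, c'.P l k → c.P l k) ∧ (∀ l k, c'.Q l k → c.Q l k) ∧ Req A c'.P e ∧ Req B c'.Q e := by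
  obtain ⟨P', h1, h2, h3, h4⟩ := step12 c.hP c.pos e
  obtain ⟨Q', h5, h6, h7, h8⟩ := step12 c.hQ h3.swap e
  exact ⟨⟨P', Q', h1, h5, h7.swap⟩, h2, h6, h4, h8⟩

theorem pre_cont (n : ℕ) : Continuous fun x : ℕ → Bool => pre x n := by
  induction n with
  | zero => exact continuous_const
  | succ n ih =>
    have h1 : Continuous fun b : Bool => if b then 2 ^ n else 0 := continuous_of_discreteTopology
    exact ih.add (h1.comp (continuous_apply n))

theorem pre_bits (j n : ℕ) : pre j.testBit n = j % 2 ^ n := by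
  apply Nat.eq_of_testBit_eq
  intro i
  rw [pre_testBit, Nat.testBit_mod_two_pow]

theorem exists_pair (A B : Set ℕ) : ∃ x y : ℕ → Bool,
    (∀ e Y, Cmp e (toSet x) Y → ∃ Z, Red Z A ∧ delta Y Z ≤ 1 / 2) ∧
    (∀ e Y, Cmp e A Y → delta Y (toSet x) ≤ 1 / 2) ∧
    (∀ e Y, Cmp e (toSet y) Y → ∃ Z, Red Z B ∧ delta Y Z ≤ 1 / 2) ∧
    (∀ e Y, Cmp e B Y → delta Y (toSet y) ≤ 1 / 2) ∧
    (∀ e Y, Cmp e (toSet x) Y → delta Y (toSet y) ≤ 1 / 2) ∧
    (∀ e Y, Cmp e (toSet y) Y → delta Y (toSet x) ≤ 1 / 2) := by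
  choose g hg1 hg2 hg3 hg4 using @step_all A B
  let c0 : Cond A B := ⟨fun _ _ => True, fun _ _ => True,
    Dec.of_cp (RE.cp_of_re (RE.const True) (RE.const (¬ True))),
    Dec.of_cp (RE.cp_of_re (RE.const True) (RE.const (¬ True))), pos_top⟩
  let c : ℕ → Cond A B := fun n => Nat.rec c0 (fun n r => g r n) n
  have hcs : ∀ n, c (n + 1) = g (c n) n := fun n => rfl
  have hPmono : ∀ m n, m ≤ n → ∀ l k, (c n).P l k → (c m).P l k := by
    intro m n h
    induction n, h using Nat.le_induction with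
    | base => exact fun _ _ h => h
    | succ n _ ih => exact fun l k h => ih l k (hg1 (c n) n l k h)
  have hQmono : ∀ m n, m ≤ n → ∀ l k, (c n).Q l k → (c m).Q l k := by
    intro m n h
    induction n, h using Nat.le_induction with
    | base => exact fun _ _ h => h
    | succ n _ ih => exact fun l k h => ih l k (hg2 (c n) n l k h)
  let L : ℕ → Set ((ℕ → Bool) × (ℕ → Bool)) := fun n =>
    {p | EE (c n).P (c n).Q uu n (pre p.1 n) (pre p.2 n)}
  have hclosed : ∀ n, IsClosed (L n) := by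
    intro n
    have h1 : Continuous fun p : (ℕ → Bool) × (ℕ → Bool) => (pre p.1 n, pre p.2 n) :=
      ((pre_cont n).comp continuous_fst).prodMk ((pre_cont n).comp continuous_snd)
    exact (isClosed_discrete {q : ℕ × ℕ | EE (c n).P (c n).Q uu n q.1 q.2}).preimage h1
  have hne : ∀ n, (L n).Nonempty := by
    intro n
    obtain ⟨d, hd⟩ := (c n).pos
    have h1 := hd (max d n) (le_max_left _ _)
    have h2 : 0 < pc (max d n) (EE (c n).P (c n).Q uu (max d n)) := by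
      rcases Nat.eq_zero_or_pos (pc (max d n) (EE (c n).P (c n).Q uu (max d n))) with h | h
      · rw [h] at h1
        have : 0 < 4 ^ max d n := by positivity
        omega
      · exact h
    obtain ⟨j, k, hjk⟩ : ∃ j k, EE (c n).P (c n).Q uu (max d n) j k := by
      by_contra hcon
      push Not at hcon
      have h3 : pc (max d n) (EE (c n).P (c n).Q uu (max d n)) ≤
          pc (max d n) (fun _ _ => False) := pc_mono fun j _ k _ h => hcon j k h
      have h4 : pc (max d n) (fun _ _ => False) = 0 := by simp [pc, cnt]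
      omega
    refine ⟨(j.testBit, k.testBit), ?_⟩
    show EE (c n).P (c n).Q uu n (pre j.testBit n) (pre k.testBit n)
    rw [pre_bits, pre_bits]
    exact hjk.mono (le_max_right _ _)
  have hdec : ∀ n, L (n + 1) ⊆ L n := by
    rintro n p ⟨h1, h2, h3⟩
    have h4 := EE.mono (P := (c (n + 1)).P) (Q := (c (n + 1)).Q) (u := uu) (l := n) (s := n + 1)
      (Nat.le_succ n) ⟨h1, h2, h3⟩
    rw [pre_mod _ (Nat.le_succ n), pre_mod _ (Nat.le_succ n)] at h4
    exact ⟨fun l hl => hPmono n (n + 1) (Nat.le_succ n) _ _ (h4.1 l hl),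
      fun l hl => hQmono n (n + 1) (Nat.le_succ n) _ _ (h4.2.1 l hl), h4.2.2⟩
  obtain ⟨⟨x, y⟩, hxy⟩ := IsCompact.nonempty_iInter_of_sequence_nonempty_isCompact_isClosed L
    hdec hne (hclosed 0).isCompact hclosed
  rw [Set.mem_iInter] at hxy
  have hx : ∀ m l, (c m).P l (pre x l) := by
    intro m l
    have h1 := (hxy (max m l)).1 l (le_max_right _ _)
    simp only at h1
    rw [pre_mod x (le_max_right _ _)] at h1
    exact hPmono m _ (le_max_left _ _) _ _ h1
  have hy : ∀ m l, (c m).Q l (pre y l) := by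
    intro m l
    have h1 := (hxy (max m l)).2.1 l (le_max_right _ _)
    simp only at h1
    rw [pre_mod y (le_max_right _ _)] at h1
    exact hQmono m _ (le_max_left _ _) _ _ h1
  have hu : ∀ l, ¬ uu l (pre x l) (pre y l) := by
    intro l h
    exact (hxy l).2.2 ⟨l, le_rfl, by
      simp only
      rw [pre_mod x le_rfl, pre_mod y le_rfl]; exact h⟩
  refine ⟨x, y, fun e => (hg3 (c e) e x (hx (e + 1))).1, fun e => (hg3 (c e) e x (hx (e + 1))).2,
    fun e => (hg4 (c e) e y (hy (e + 1))).1, fun e => (hg4 (c e) e y (hy (e + 1))).2,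
    fun e Y hY => vv_prop (fun l h => hu l (Or.inl h)) hY,
    fun e Y hY => vv_prop (fun l h => hu l (Or.inr h)) hY⟩

end Pool.Agent.Helper643.DM
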