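import Pool.Agent.helper643_DM.Comb

/-!
# Pairs of strings: densities in rectangles
-/

set_option autoImplicit false

namespace Pool.Agent.Helper643.DM

open Finset

/-- all initial segments of the string `k` of length `s` are in the tree `P` -/
def Cyl (P : ℕ → ℕ → Prop) (s k : ℕ) : Prop := ∀ l ≤ s, P l (k % 2 ^ l)

/-- some initial segment of the pair of strings is in `u` -/
def UU (u : ℕ → ℕ → ℕ → Prop) (s j k : ℕ) : Prop := ∃ l ≤ s, u l (j % 2 ^ l) (k % 2 ^ l)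

/-- the approximation to `([P] × [Q]) \ U` -/
def EE (P Q : ℕ → ℕ → Prop) (u : ℕ → ℕ → ℕ → Prop) (s j k : ℕ) : Prop :=
  Cyl P s j ∧ Cyl Q s k ∧ ¬ UU u s j k

/-- the number of the pairs of strings of length `s` with the property `R` -/
noncomputable def pc (s : ℕ) (R : ℕ → ℕ → Prop) : ℕ := ∑ j ∈ range (2 ^ s), cnt s (R j)

/-- `([P] × [Q]) \ U` has positive measure -/
def Pos (P Q : ℕ → ℕ → Prop) (u : ℕ → ℕ → ℕ → Prop) : Prop :=
  ∃ c, ∀ s ≥ c, 4 ^ s ≤ c * pc s (EE P Q u s)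

theorem mod_mod {l s : ℕ} (h : l ≤ s) (k : ℕ) : k % 2 ^ s % 2 ^ l = k % 2 ^ l :=
  Nat.mod_mod_of_dvd k (pow_dvd_pow 2 h)

theorem Cyl.mono {P : ℕ → ℕ → Prop} {l s k : ℕ} (h : l ≤ s) (hc : Cyl P s k) :
    Cyl P l (k % 2 ^ l) := by
  intro i hi
  rw [mod_mod hi]
  exact hc i (hi.trans h)

theorem UU.mono {u : ℕ → ℕ → ℕ → Prop} {l s j k : ℕ} (h : l ≤ s)
    (hc : UU u l (j % 2 ^ l) (k % 2 ^ l)) : UU u s j k := by
  obtain ⟨i, hi, h1⟩ := hc
  rw [mod_mod hi, mod_mod hi] at h1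
  exact ⟨i, hi.trans h, h1⟩

theorem EE.mono {P Q : ℕ → ℕ → Prop} {u : ℕ → ℕ → ℕ → Prop} {l s j k : ℕ} (h : l ≤ s)
    (hc : EE P Q u s j k) : EE P Q u l (j % 2 ^ l) (k % 2 ^ l) :=
  ⟨hc.1.mono h, hc.2.1.mono h, fun h' => hc.2.2 (h'.mono h)⟩

theorem cnt_eq_sum (s : ℕ) (P : ℕ → Prop) [DecidablePred P] :
    cnt s P = ∑ k ∈ range (2 ^ s), if P k then 1 else 0 := by
  unfold cnt
  rw [card_filter]
  congr! 2

theorem cnt_pos {s k : ℕ} {P : ℕ → Prop} (hk : k < 2 ^ s) (h : P k) : 1 ≤ cnt s P := by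
  classical
  unfold cnt
  exact card_pos.2 ⟨k, mem_filter.2 ⟨mem_range.2 hk, h⟩⟩

theorem sum_mod {n s : ℕ} (h : n ≤ s) (F : ℕ → ℕ) :
    ∑ k ∈ range (2 ^ s), F (k % 2 ^ n) = 2 ^ (s - n) * ∑ k ∈ range (2 ^ n), F k := by
  induction s, h using Nat.le_induction with
  | base =>
    rw [Nat.sub_self, pow_zero, one_mul]
    exact sum_congr rfl fun k hk => by rw [Nat.mod_eq_of_lt (mem_range.1 hk)]
  | succ s hs ih =>
    rw [show s + 1 - n = (s - n) + 1 by omega, pow_succ, pow_succ, mul_two, sum_range_add, ih]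
    have h1 : ∑ k ∈ range (2 ^ s), F ((2 ^ s + k) % 2 ^ n) =
        ∑ k ∈ range (2 ^ s), F (k % 2 ^ n) := by
      refine sum_congr rfl fun k _ => ?_
      obtain ⟨c, hc⟩ : 2 ^ n ∣ 2 ^ s := pow_dvd_pow 2 hs
      rw [hc, Nat.mul_add_mod]
    rw [h1, ih]
    ring

theorem pc_mono {s : ℕ} {R R' : ℕ → ℕ → Prop} (h : ∀ j < 2 ^ s, ∀ k < 2 ^ s, R j k → R' j k) :
    pc s R ≤ pc s R' :=
  sum_le_sum fun j hj => cnt_mono fun k hk => h j (mem_range.1 hj) k hk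

theorem pc_congr {s : ℕ} {R R' : ℕ → ℕ → Prop}
    (h : ∀ j < 2 ^ s, ∀ k < 2 ^ s, (R j k ↔ R' j k)) : pc s R = pc s R' :=
  le_antisymm (pc_mono fun j hj k hk => (h j hj k hk).1)
    (pc_mono fun j hj k hk => (h j hj k hk).2)

theorem pc_or (s : ℕ) (R R' : ℕ → ℕ → Prop) :
    pc s (fun j k => R j k ∨ R' j k) ≤ pc s R + pc s R' := by
  unfold pc
  rw [← sum_add_distrib]
  exact sum_le_sum fun j _ => cnt_or s (R j) (R' j)

theorem pc_swap (s : ℕ) (R : ℕ → ℕ → Prop) : pc s (fun j k => R k j) = pc s R := by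
  classical
  unfold pc
  simp only [cnt_eq_sum]
  rw [sum_comm]

theorem pc_prod (s : ℕ) (P Q : ℕ → Prop) : pc s (fun j k => P j ∧ Q k) = cnt s P * cnt s Q := by
  classical
  unfold pc
  rw [cnt_eq_sum s P, sum_mul]
  refine sum_congr rfl fun j _ => ?_
  by_cases h : P j
  · simp [h]
  · simp [h, cnt]

theorem pc_scale {R : ℕ → ℕ → ℕ → Prop} {l s : ℕ} (h : l ≤ s)
    (hR : ∀ j k, R s j k → R l (j % 2 ^ l) (k % 2 ^ l)) :
    pc s (R s) ≤ 4 ^ (s - l) * pc l (R l) := by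
  calc pc s (R s) ≤ pc s (fun j k => R l (j % 2 ^ l) (k % 2 ^ l)) :=
        pc_mono fun j _ k _ => hR j k
    _ = ∑ j ∈ range (2 ^ s), 2 ^ (s - l) * cnt l (R l (j % 2 ^ l)) :=
        sum_congr rfl fun j _ => cnt_mod h (R l (j % 2 ^ l))
    _ = 2 ^ (s - l) * (2 ^ (s - l) * ∑ j ∈ range (2 ^ l), cnt l (R l j)) := by
        rw [← mul_sum, sum_mod h (fun j => cnt l (R l j))]
    _ = 4 ^ (s - l) * pc l (R l) := by
        rw [show (4 : ℕ) = 2 * 2 by rfl, mul_pow]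
        unfold pc
        ring

theorem cnt_fib {N s : ℕ} (P : ℕ → Prop) :
    cnt s P = ∑ b ∈ range (2 ^ N), cnt s (fun k => k % 2 ^ N = b ∧ P k) := by
  classical
  simp only [cnt_eq_sum]
  rw [sum_comm]
  refine sum_congr rfl fun k _ => ?_
  have h1 : k % 2 ^ N ∈ range (2 ^ N) := mem_range.2 (Nat.mod_lt _ (by positivity))
  rw [sum_eq_single_of_mem _ h1 fun b _ hb => by simp [hb.symm]]
  simp

theorem pc_fib {N s : ℕ} (R : ℕ → ℕ → Prop) :
    pc s R = ∑ a ∈ range (2 ^ N), ∑ b ∈ range (2 ^ N),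
      pc s (fun j k => j % 2 ^ N = a ∧ k % 2 ^ N = b ∧ R j k) := by
  classical
  unfold pc
  have h1 : ∀ j, cnt s (R j) = ∑ a ∈ range (2 ^ N), ∑ b ∈ range (2 ^ N),
      cnt s (fun k => j % 2 ^ N = a ∧ k % 2 ^ N = b ∧ R j k) := by
    intro j
    have h2 : j % 2 ^ N ∈ range (2 ^ N) := mem_range.2 (Nat.mod_lt _ (by positivity))
    rw [sum_eq_single_of_mem _ h2 fun a _ ha => by simp [ha.symm, cnt]]
    simpa using cnt_fib (N := N) (R j)
  simp only [h1]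
  rw [sum_comm]
  refine sum_congr rfl fun a _ => ?_
  rw [sum_comm]

/-- a rectangle of high density -/
theorem exists_rect {R : ℕ → ℕ → ℕ → Prop}
    (hR : ∀ l s j k, l ≤ s → R s j k → R l (j % 2 ^ l) (k % 2 ^ l)) {c : ℕ}
    (hc : ∀ s ≥ c, 4 ^ s ≤ c * pc s (R s)) :
    ∃ N a b, a < 2 ^ N ∧ b < 2 ^ N ∧ ∀ s ≥ N, 7 * 4 ^ (s - N) ≤
      8 * pc s (fun j k => j % 2 ^ N = a ∧ k % 2 ^ N = b ∧ R s j k) := by
  have hc0 : 0 < c := by
    have := hc c le_rfl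
    rcases Nat.eq_zero_or_pos c with rfl | h
    · simp at this
    · exact h
  -- the level
  obtain ⟨N, hN⟩ : ∃ N, ∀ s ≥ N, 7 * (4 ^ (s - N) * pc N (R N)) < 8 * pc s (R s) := by
    let e : ℕ → ℝ := fun n => (pc (n + c) (R (n + c)) : ℝ) / 4 ^ (n + c)
    have he : ∀ n, 1 / (c : ℝ) ≤ e n := by
      intro n
      have h1 := hc (n + c) (by omega)
      have h2 : (4 : ℝ) ^ (n + c) ≤ c * pc (n + c) (R (n + c)) := by exact_mod_cast h1
      have h3 : (0 : ℝ) < c := by exact_mod_cast hc0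
      simp only [e]
      rw [div_le_div_iff₀ h3 (by positivity)]
      linarith
    have hbdd : BddBelow (Set.range e) := ⟨1 / (c : ℝ), by rintro _ ⟨n, rfl⟩; exact he n⟩
    have hinf : 1 / (c : ℝ) ≤ ⨅ n, e n := le_ciInf he
    have hpos : 0 < ⨅ n, e n := lt_of_lt_of_le (by positivity) hinf
    obtain ⟨n, hn⟩ := exists_lt_of_ciInf_lt (show ⨅ n, e n < 8 / 7 * ⨅ n, e n by linarith)
    refine ⟨n + c, fun s hs => ?_⟩
    obtain ⟨m, rfl⟩ : ∃ m, s = m + c := ⟨s - c, by omega⟩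
    have h1 : e n < 8 / 7 * e m := lt_of_lt_of_le hn (by
      have := ciInf_le hbdd m
      linarith)
    simp only [e] at h1
    have h2 : (4 : ℝ) ^ (m + c) = 4 ^ (m + c - (n + c)) * 4 ^ (n + c) := by
      rw [← pow_add]; congr 1; omega
    rw [h2] at h1
    have h3 : (0 : ℝ) < 4 ^ (n + c) := by positivity
    have h4 : (0 : ℝ) < 4 ^ (m + c - (n + c)) := by positivity
    rw [div_lt_iff₀ h3] at h1
    have h5 : 8 / 7 * ((pc (m + c) (R (m + c)) : ℝ) / (4 ^ (m + c - (n + c)) * 4 ^ (n + c))) *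
        4 ^ (n + c) = 8 / 7 * (pc (m + c) (R (m + c))) / 4 ^ (m + c - (n + c)) := by
      field_simp
    rw [h5, lt_div_iff₀ h4] at h1
    have h6 : (7 : ℝ) * (4 ^ (m + c - (n + c)) * pc (n + c) (R (n + c))) <
        8 * pc (m + c) (R (m + c)) := by linarith
    exact_mod_cast h6
  by_contra hcon
  push Not at hcon
  have h1 : ∀ a b, ∃ s, a < 2 ^ N → b < 2 ^ N → N ≤ s ∧
      8 * pc s (fun j k => j % 2 ^ N = a ∧ k % 2 ^ N = b ∧ R s j k) < 7 * 4 ^ (s - N) := by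
    intro a b
    by_cases hab : a < 2 ^ N ∧ b < 2 ^ N
    · obtain ⟨s, hs, hs'⟩ := hcon N a b hab.1 hab.2
      exact ⟨s, fun _ _ => ⟨hs, hs'⟩⟩
    · exact ⟨0, fun ha hb => absurd ⟨ha, hb⟩ hab⟩
  choose g hg using h1
  set S := N + ∑ a ∈ range (2 ^ N), ∑ b ∈ range (2 ^ N), g a b with hS
  have hgS : ∀ a < 2 ^ N, ∀ b < 2 ^ N, g a b ≤ S := by
    intro a ha b hb
    have h2 : g a b ≤ ∑ b ∈ range (2 ^ N), g a b :=
      single_le_sum (f := fun b => g a b) (fun _ _ => Nat.zero_le _) (mem_range.2 hb)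
    have h3 : ∑ b ∈ range (2 ^ N), g a b ≤ ∑ a ∈ range (2 ^ N), ∑ b ∈ range (2 ^ N), g a b :=
      single_le_sum (f := fun a => ∑ b ∈ range (2 ^ N), g a b) (fun _ _ => Nat.zero_le _)
        (mem_range.2 ha)
    omega
  have hbound : ∀ a < 2 ^ N, ∀ b < 2 ^ N,
      8 * pc S (fun j k => j % 2 ^ N = a ∧ k % 2 ^ N = b ∧ R S j k) ≤ 7 * 4 ^ (S - N) := by
    intro a ha b hb
    obtain ⟨h2, h3⟩ := hg a b ha hb
    have h4 := pc_scale (R := fun s j k => j % 2 ^ N = a ∧ k % 2 ^ N = b ∧ R s j k)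
      (hgS a ha b hb) (fun j k ⟨h5, h6, h7⟩ => ⟨by rwa [mod_mod h2], by rwa [mod_mod h2],
        hR _ _ _ _ (hgS a ha b hb) h7⟩)
    calc 8 * pc S (fun j k => j % 2 ^ N = a ∧ k % 2 ^ N = b ∧ R S j k) ≤
        8 * (4 ^ (S - g a b) * pc (g a b)
          (fun j k => j % 2 ^ N = a ∧ k % 2 ^ N = b ∧ R (g a b) j k)) :=
          Nat.mul_le_mul_left _ h4
      _ = 4 ^ (S - g a b) * (8 * pc (g a b)
          (fun j k => j % 2 ^ N = a ∧ k % 2 ^ N = b ∧ R (g a b) j k)) := by ring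
      _ ≤ 4 ^ (S - g a b) * (7 * 4 ^ (g a b - N)) := Nat.mul_le_mul_left _ h3.le
      _ = 7 * (4 ^ (S - g a b) * 4 ^ (g a b - N)) := by ring
      _ = 7 * 4 ^ (S - N) := by
          rw [← pow_add]; congr 2; have := hgS a ha b hb; omega
  have hbound2 : ∀ a < 2 ^ N, ∀ b < 2 ^ N,
      8 * pc S (fun j k => j % 2 ^ N = a ∧ k % 2 ^ N = b ∧ R S j k) ≤
        7 * 4 ^ (S - N) * (cnt N (fun k => k = b ∧ R N a k)) := by
    intro a ha b hb
    by_cases hab : R N a b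
    · have h2 : 1 ≤ cnt N (fun k => k = b ∧ R N a k) := cnt_pos hb ⟨rfl, hab⟩
      calc _ ≤ 7 * 4 ^ (S - N) := hbound a ha b hb
        _ = 7 * 4 ^ (S - N) * 1 := (mul_one _).symm
        _ ≤ _ := Nat.mul_le_mul_left _ h2
    · have h2 : pc S (fun j k => j % 2 ^ N = a ∧ k % 2 ^ N = b ∧ R S j k) ≤
          pc S (fun _ _ => False) := by
        refine pc_mono fun j _ k _ => ?_
        rintro ⟨h3, h4, h5⟩
        have h6 := hR N S j k (by omega) h5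
        rw [h3, h4] at h6
        exact hab h6
      have h3 : pc S (fun _ _ => False) = 0 := by simp [pc, cnt]
      rw [h3] at h2
      have : pc S (fun j k => j % 2 ^ N = a ∧ k % 2 ^ N = b ∧ R S j k) = 0 := by omega
      rw [this]
      simp
  have h5 : 8 * pc S (R S) ≤ 7 * 4 ^ (S - N) * pc N (R N) := by
    rw [pc_fib (N := N) (R S), mul_sum]
    unfold pc
    rw [mul_sum]
    refine sum_le_sum fun a ha => ?_
    rw [mul_sum]
    have h6 : cnt N (R N a) = ∑ b ∈ range (2 ^ N), cnt N (fun k => k = b ∧ R N a k) := by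
      rw [cnt_fib (N := N) (R N a)]
      refine sum_congr rfl fun b _ => cnt_congr fun k hk => ?_
      rw [Nat.mod_eq_of_lt hk]
    rw [h6, mul_sum]
    exact sum_le_sum fun b hb => hbound2 a (mem_range.1 ha) b (mem_range.1 hb)
  have h6 := hN S (by omega)
  have h7 : 7 * (4 ^ (S - N) * pc N (R N)) = 7 * 4 ^ (S - N) * pc N (R N) := by ring
  omega

end Pool.Agent.Helper643.DM
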