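import Pool.Agent.helper643_DM.Core
import Pool.Agent.helper643_DM.Func

/-!
# The steps of the construction
-/

set_option autoImplicit false

namespace Pool.Agent.Helper643.DM

open Encodable Pool.Agent.Helper578.JD Pool.Agent.Helper578.JD.Oracle
open Pool.Agent.H454R3.Att (FunIn unif toSet delta)

/-- `P` is a tree which is decidable relative to `A` -/
abbrev DecT (A : Set ℕ) (P : ℕ → ℕ → Prop) : Prop := Dec A fun p : ℕ × ℕ => P p.1 p.2

/-- `u` is a decidable set of pairs of strings -/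
abbrev DecU (A : Set ℕ) (u : ℕ → ℕ → ℕ → Prop) : Prop :=
  Dec A fun p : ℕ × ℕ × ℕ => u p.1 p.2.1 p.2.2

section

variable {α : Type} [Primcodable α] {A : Set ℕ}

theorem cyl_dec {P : ℕ → ℕ → Prop} (hP : DecT A P) {s k : α → ℕ} (hs : Computable s)
    (hk : Computable k) : Dec A fun a => Cyl P (s a) (k a) := by
  have h1 : Dec A fun a => ∀ l < s a + 1, P l (k a % 2 ^ l) :=
    Dec.all_lt (S := fun a l => P l (k a % 2 ^ l)) (f := fun a => s a + 1)
      (hP.comp (f := fun x : α × ℕ => (x.2, k x.1 % 2 ^ x.2)) (by fun_prop)) (by fun_prop)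
  refine h1.of_eq fun a => ?_
  unfold Cyl
  simp only [Nat.lt_succ_iff]

theorem uu_dec {u : ℕ → ℕ → ℕ → Prop} (hu : DecU A u) {s j k : α → ℕ} (hs : Computable s)
    (hj : Computable j) (hk : Computable k) : Dec A fun a => UU u (s a) (j a) (k a) := by
  have h1 : Dec A fun a => ∃ l < s a + 1, u l (j a % 2 ^ l) (k a % 2 ^ l) :=
    Dec.ex_lt (S := fun a l => u l (j a % 2 ^ l) (k a % 2 ^ l)) (f := fun a => s a + 1)
      (hu.comp (f := fun x : α × ℕ => (x.2, j x.1 % 2 ^ x.2, k x.1 % 2 ^ x.2)) (by fun_prop))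
      (by fun_prop)
  refine h1.of_eq fun a => ?_
  unfold UU
  simp only [Nat.lt_succ_iff]

theorem P1_dec {P : ℕ → ℕ → Prop} {u : ℕ → ℕ → ℕ → Prop} (hP : DecT A P) (hu : DecU A u)
    (N a b : ℕ) : DecT A (P1 P u N a b) := by
  refine Dec.and hP (Dec.and (Dec.imp ?_ ?_) (Dec.not (Dec.and ?_ ?_)))
  · exact Dec.of_cp (RE.cp_le (by fun_prop) (by fun_prop))
  · exact Dec.of_cp (RE.cp_eq (by fun_prop) (by fun_prop))
  · exact Dec.of_cp (RE.cp_le (by fun_prop) (by fun_prop))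
  · have h1 : FI A fun p : ℕ × ℕ => cnt p.1 (fun k => k % 2 ^ N = b ∧ UU u p.1 p.2 k) :=
      FI.count (S := fun (p : ℕ × ℕ) k => k % 2 ^ N = b ∧ UU u p.1 p.2 k)
        (Dec.and (Dec.of_cp (RE.cp_eq (by fun_prop) (by fun_prop)))
          (uu_dec hu (by fun_prop) (by fun_prop) (by fun_prop))) (by fun_prop)
    exact h1.dec (S := fun p v => 2 ^ (p.1 - N) < 2 * v)
      (Dec.of_cp (RE.cp_lt (by fun_prop) (by fun_prop)))

theorem bb_lt_of {m n x : ℕ} (h1 : bb m ≤ x) (h2 : x < bb (m + 1)) (h3 : bb n ≤ x)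
    (h4 : x < bb (n + 1)) : m = n := by
  rcases lt_trichotomy m n with h | h | h
  · have := bb_mono (show m + 1 ≤ n from h); omega
  · exact h
  · have := bb_mono (show n + 1 ≤ m from h); omega

/-- the set whose part on the block number `m` is given by the bits of `z m` -/
def zset (z : ℕ → ℕ) : Set ℕ :=
  {n | ∃ m, (bb m ≤ n ∧ n < bb (m + 1)) ∧ (z m).testBit (n - bb m) = true}

theorem ch_zset (z : ℕ → ℕ) {m i : ℕ} (hi : i < m ^ 4) : ch (zset z) (bb m + i) =
    (z m).testBit i := by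
  have h1 : bb m + i < bb (m + 1) := by rw [bb_succ]; omega
  have h2 : bb m + i ∈ zset z ↔ (z m).testBit i = true := by
    constructor
    · rintro ⟨n, ⟨h3, h4⟩, h5⟩
      obtain rfl := bb_lt_of (by omega) h1 h3 h4
      simpa using h5
    · intro h
      exact ⟨m, ⟨by omega, h1⟩, by simpa using h⟩
  have h3 := ch_eq_true (Y := zset z) (n := bb m + i)
  rw [h2] at h3
  cases hc : ch (zset z) (bb m + i) <;> cases hz : (z m).testBit i <;> simp_all

theorem zset_red {f : ℕ → ℕ} (hf : FunIn A f) : Red (zset fun m => (f m).unpair.2) A := by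
  have key : ∀ c : Bool, REIn A fun n : ℕ => ∃ m : ℕ, (bb m ≤ n ∧ n < bb (m + 1)) ∧
      ((f m).unpair.2).testBit (n - bb m) = c := by
    intro c
    refine REIn.ex (S := fun (n m : ℕ) => (bb m ≤ n ∧ n < bb (m + 1)) ∧
      ((f m).unpair.2).testBit (n - bb m) = c) (REIn.and ?_ ?_)
    · exact REIn.of_re (RE.and (RE.le (by fun_prop) (by fun_prop))
        (RE.lt (by fun_prop) (by fun_prop)))
    · have h1 : FI A fun x : ℕ × ℕ => f x.2 := FI.comp (F := f) hf (by fun_prop)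
      exact h1.re (S := fun x v => v.unpair.2.testBit (x.1 - bb x.2) = c)
        (REIn.of_re (RE.eq (by fun_prop) (by fun_prop)))
  rw [Red_iff]
  refine ⟨(key true).of_eq fun n => Iff.rfl, (key false).of_eq fun n => ?_⟩
  constructor
  · rintro ⟨m, h1, h2⟩ ⟨m', h3, h4⟩
    obtain rfl := bb_lt_of h1.1 h1.2 h3.1 h3.2
    simp only at h4
    rw [h2] at h4
    exact absurd h4 (by simp)
  · intro h
    obtain ⟨m, h1, h2⟩ := bb_exists n
    refine ⟨m, ⟨h1, h2⟩, ?_⟩
    by_contra hcon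
    exact h ⟨m, ⟨h1, h2⟩, by simpa using hcon⟩

end

/-- the first step: every set computed from a member of the refined tree by the functional `e` is
at distance at most one half from a set computable from `A` -/
theorem step1 {A : Set ℕ} {P Q : ℕ → ℕ → Prop} {u : ℕ → ℕ → ℕ → Prop} (hP : DecT A P)
    (hu : DecU A u) (hpos : Pos P Q u) (e : ℕ) :
    ∃ P' : ℕ → ℕ → Prop, DecT A P' ∧ (∀ l k, P' l k → P l k) ∧ Pos P' Q u ∧
      ∀ x : ℕ → Bool, (∀ l, P' l (pre x l)) → ∀ Y, Cmp e (toSet x) Y →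
        ∃ Z, Red Z A ∧ delta Y Z ≤ 1 / 2 := by
  classical
  by_cases hcase : ∃ m, Pos (fun l j => P l j ∧ ¬ TB e m l j) Q u
  · obtain ⟨m, hm⟩ := hcase
    refine ⟨_, Dec.and hP (Dec.not (TB_dec (by fun_prop) (by fun_prop) (by fun_prop)
      (by fun_prop))), fun l k h => h.1, hm, fun x hx Y hY => ?_⟩
    obtain ⟨s, hs⟩ := hY.TB m
    exact absurd hs (hx s).2
  push Not at hcase
  obtain ⟨c, hc⟩ := hpos
  obtain ⟨N, a, b, ha, hb, hd⟩ := exists_rect (R := EE P Q u) (fun l s j k h h' => h'.mono h) hc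
  have hT : ∀ m l s j, l ≤ s → TB e m l (j % 2 ^ l) → TB e m s j :=
    fun m l s j h h' => TB_mono h h'
  have hP1 := P1_dec (A := A) hP hu N a b
  -- the search
  let B : ℕ → ℕ → ℕ → ℕ → Prop := fun m s z j =>
    ¬ (TB e m s j ∧ ¬ bad m (ansF e m s j) z.testBit)
  let S : ℕ → ℕ → Prop := fun m t => (N ≤ t.unpair.1 ∧ m ≤ t.unpair.1) ∧
    m ^ 2 * cnt t.unpair.1 (fun j => Cyl (P1 P u N a b) t.unpair.1 j ∧
      B m t.unpair.1 t.unpair.2 j) ≤ 2 * 2 ^ t.unpair.1
  have hB : ∀ {α : Type} [Primcodable α] {m s z j : α → ℕ}, Computable m → Computable s →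
      Computable z → Computable j → Dec A fun x => B (m x) (s x) (z x) (j x) := by
    intro α _ m s z j hm hs hz hj
    refine Dec.not (Dec.and (TB_dec (by fun_prop) (by fun_prop) (by fun_prop) (by fun_prop))
      (Dec.not (bad_dec (F := fun x => ansF e (m x) (s x) (j x)) (G := fun x => (z x).testBit)
        ?_ ?_ hm)))
    · exact ansF_dec (e := fun _ => e) (m := fun x : α × ℕ => m x.1) (s := fun x => s x.1)
        (k := fun x => j x.1) (i := fun x => x.2) (by fun_prop) (by fun_prop) (by fun_prop)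
        (by fun_prop) (by fun_prop)
    · exact Dec.of_cp (cpdec (f := fun x : α × ℕ => (z x.1).testBit x.2) (by fun_prop))
  have hS : Dec A fun p : ℕ × ℕ => S p.1 p.2 := by
    refine Dec.and (Dec.and ?_ ?_) ?_
    · exact Dec.of_cp (RE.cp_le (by fun_prop) (by fun_prop))
    · exact Dec.of_cp (RE.cp_le (by fun_prop) (by fun_prop))
    · have h1 : FI A fun p : ℕ × ℕ => cnt p.2.unpair.1 (fun j =>
          Cyl (P1 P u N a b) p.2.unpair.1 j ∧ B p.1 p.2.unpair.1 p.2.unpair.2 j) :=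
        FI.count (S := fun (p : ℕ × ℕ) j => Cyl (P1 P u N a b) p.2.unpair.1 j ∧
          B p.1 p.2.unpair.1 p.2.unpair.2 j) (f := fun p => p.2.unpair.1)
          (Dec.and (cyl_dec hP1 (by fun_prop) (by fun_prop))
            (hB (by fun_prop) (by fun_prop) (by fun_prop) (by fun_prop))) (by fun_prop)
      exact h1.dec (S := fun p v => p.1 ^ 2 * v ≤ 2 * 2 ^ p.2.unpair.1)
        (Dec.of_cp (cmp1 (m := fun x : (ℕ × ℕ) × ℕ => x.1.1) (v := fun x => x.2)
          (s := fun x => x.1.2.unpair.1) (by fun_prop) (by fun_prop) (by fun_prop)))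
  have hex : ∀ m, ∃ t, S m t := by
    intro m
    obtain ⟨s, hs1, hs2, hs3⟩ := few hd ha (hT m) (hcase m) (m ^ 2 + m)
    obtain ⟨z, hz⟩ := avg m s fun j => ansF e m s j
    refine ⟨Nat.pair s z, ?_⟩
    simp only [S, Nat.unpair_pair]
    refine ⟨⟨hs2, by omega⟩, ?_⟩
    have h1 : cnt s (fun j => Cyl (P1 P u N a b) s j ∧ B m s z j) ≤
        cnt s (fun j => Cyl (P1 P u N a b) s j ∧ ¬ TB e m s j) +
        cnt s (fun j => bad m (ansF e m s j) z.testBit) := by
      refine le_trans (cnt_mono fun j _ hj => ?_) (cnt_or s _ _)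
      by_cases h2 : TB e m s j
      · right
        by_contra h3
        exact hj.2 ⟨h2, h3⟩
      · exact Or.inl ⟨hj.1, h2⟩
    have h2 : m ^ 2 * cnt s (fun j => Cyl (P1 P u N a b) s j ∧ ¬ TB e m s j) ≤ 2 ^ s := by
      refine le_trans (Nat.mul_le_mul_right _ ?_) hs3
      omega
    calc m ^ 2 * cnt s (fun j => Cyl (P1 P u N a b) s j ∧ B m s z j) ≤
        m ^ 2 * (cnt s (fun j => Cyl (P1 P u N a b) s j ∧ ¬ TB e m s j) +
        cnt s (fun j => bad m (ansF e m s j) z.testBit)) := Nat.mul_le_mul_left _ h1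
      _ ≤ 2 * 2 ^ s := by rw [mul_add]; omega
  obtain ⟨f, hf, hfS⟩ := unif hS.1 hex
  set M := 2 ^ (N + 3) with hM
  let P' : ℕ → ℕ → Prop := fun l k => P1 P u N a b l k ∧ ∀ m < l + 1,
    (M ≤ m ∧ (f m).unpair.1 ≤ l) → ¬ B m (f m).unpair.1 (f m).unpair.2 (k % 2 ^ (f m).unpair.1)
  refine ⟨P', ?_, fun l k h => h.1.1, ?_, ?_⟩
  · refine Dec.and hP1 ?_
    refine Dec.all_lt (S := fun (p : ℕ × ℕ) m => (M ≤ m ∧ (f m).unpair.1 ≤ p.1) →
      ¬ B m (f m).unpair.1 (f m).unpair.2 (p.2 % 2 ^ (f m).unpair.1)) (f := fun p => p.1 + 1)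
      ?_ (by fun_prop)
    have h1 : FI A fun x : (ℕ × ℕ) × ℕ => f x.2 := FI.comp (F := f) hf (by fun_prop)
    refine h1.dec (S := fun x v => (M ≤ x.2 ∧ v.unpair.1 ≤ x.1.1) →
      ¬ B x.2 v.unpair.1 v.unpair.2 (x.1.2 % 2 ^ v.unpair.1)) (Dec.imp (Dec.and ?_ ?_)
        (Dec.not ?_))
    · exact Dec.of_cp (RE.cp_le (by fun_prop) (by fun_prop))
    · exact Dec.of_cp (RE.cp_le (by fun_prop) (by fun_prop))
    · exact hB (by fun_prop) (by fun_prop) (by fun_prop) (by fun_prop)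
  · refine pos_of_loss hd ha hb fun s hs => ?_
    let W : ℕ → ℕ → Prop := fun m j => (f m).unpair.1 ≤ s ∧
      Cyl (P1 P u N a b) (f m).unpair.1 (j % 2 ^ (f m).unpair.1) ∧
      B m (f m).unpair.1 (f m).unpair.2 (j % 2 ^ (f m).unpair.1)
    have h1 : cnt s (fun j => Cyl (P1 P u N a b) s j ∧ ¬ Cyl P' s j) ≤
        cnt s (fun j => ∃ m, M ≤ m ∧ m < s + 1 ∧ W m j) := by
      refine cnt_mono fun j _ => ?_
      rintro ⟨h2, h3⟩
      unfold Cyl at h3
      push Not at h3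
      obtain ⟨l, hl, h4⟩ := h3
      have h5 : ¬ ∀ m < l + 1, (M ≤ m ∧ (f m).unpair.1 ≤ l) →
          ¬ B m (f m).unpair.1 (f m).unpair.2 (j % 2 ^ l % 2 ^ (f m).unpair.1) :=
        fun h => h4 ⟨h2 l hl, h⟩
      push Not at h5
      obtain ⟨m, hm, ⟨h6, h7⟩, h8⟩ := h5
      rw [mod_mod h7] at h8
      exact ⟨m, h6, by omega, h7.trans hl, h2.mono (h7.trans hl), fun h9 => h9.2 (h8 h9.1)⟩
    have h2 : M * cnt s (fun j => ∃ m, M ≤ m ∧ m < s + 1 ∧ W m j) ≤ 2 * (2 * 2 ^ s) := by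
      refine cnt_union (by positivity) s (s + 1) fun m _ => ?_
      obtain ⟨_, h3⟩ := hfS m
      by_cases h4 : (f m).unpair.1 ≤ s
      · have h5 : cnt s (W m) = 2 ^ (s - (f m).unpair.1) * cnt (f m).unpair.1 (fun j =>
            Cyl (P1 P u N a b) (f m).unpair.1 j ∧ B m (f m).unpair.1 (f m).unpair.2 j) := by
          rw [← cnt_mod h4]
          exact cnt_congr fun j _ => ⟨fun h => h.2, fun h => ⟨h4, h⟩⟩
        rw [h5]
        calc m ^ 2 * (2 ^ (s - (f m).unpair.1) * cnt (f m).unpair.1 (fun j =>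
            Cyl (P1 P u N a b) (f m).unpair.1 j ∧ B m (f m).unpair.1 (f m).unpair.2 j)) =
            2 ^ (s - (f m).unpair.1) * (m ^ 2 * cnt (f m).unpair.1 (fun j =>
            Cyl (P1 P u N a b) (f m).unpair.1 j ∧ B m (f m).unpair.1 (f m).unpair.2 j)) := by ring
          _ ≤ 2 ^ (s - (f m).unpair.1) * (2 * 2 ^ (f m).unpair.1) := Nat.mul_le_mul_left _ h3
          _ = 2 * (2 ^ (s - (f m).unpair.1) * 2 ^ (f m).unpair.1) := by ring
          _ = 2 * 2 ^ s := by rw [← pow_add]; congr 2; omega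
      · have h5 : cnt s (W m) ≤ cnt s (fun _ => False) := cnt_mono fun j _ h => h4 h.1
        have h6 : cnt s (fun _ => False) = 0 := by simp [cnt]
        rw [h6] at h5
        have : cnt s (W m) = 0 := by omega
        rw [this]
        simp
    have h3 : 4 * (2 ^ (N + 1) * cnt s (fun j => Cyl (P1 P u N a b) s j ∧ ¬ Cyl P' s j)) ≤
        4 * 2 ^ s := by
      calc 4 * (2 ^ (N + 1) * cnt s (fun j => Cyl (P1 P u N a b) s j ∧ ¬ Cyl P' s j)) =
          M * cnt s (fun j => Cyl (P1 P u N a b) s j ∧ ¬ Cyl P' s j) := by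
            rw [hM, show N + 3 = N + 1 + 2 by omega, pow_add 2 (N + 1) 2]; ring
        _ ≤ M * cnt s (fun j => ∃ m, M ≤ m ∧ m < s + 1 ∧ W m j) := Nat.mul_le_mul_left _ h1
        _ ≤ 2 * (2 * 2 ^ s) := h2
        _ = 4 * 2 ^ s := by ring
    omega
  · intro x hx Y hY
    refine ⟨_, zset_red hf, delta_le_half M fun m hm => ?_⟩
    have h1 := (hx (max m (f m).unpair.1)).2 m (by omega) ⟨hm, le_max_right _ _⟩
    rw [pre_mod x (le_max_right _ _)] at h1
    have h2 : TB e m (f m).unpair.1 (pre x (f m).unpair.1) ∧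
        ¬ bad m (ansF e m (f m).unpair.1 (pre x (f m).unpair.1)) (f m).unpair.2.testBit := by
      by_contra h
      exact h1 h
    obtain ⟨h3, h4⟩ := h2
    rw [bad_congr (f' := ansF e m (f m).unpair.1 (pre x (f m).unpair.1))
      (g' := (f m).unpair.2.testBit) (fun i hi => (hY.ansF h3 hi).symm)
      (fun i hi => ch_zset _ hi)]
    exact h4

/-- the second step: the members of the refined tree are at distance at most one half from the set
computed from `A` by the functional `e` -/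
theorem step2 {A : Set ℕ} {P Q : ℕ → ℕ → Prop} {u : ℕ → ℕ → ℕ → Prop} (hP : DecT A P)
    (hpos : Pos P Q u) (e : ℕ) :
    ∃ P' : ℕ → ℕ → Prop, DecT A P' ∧ (∀ l k, P' l k → P l k) ∧ Pos P' Q u ∧
      ∀ x : ℕ → Bool, (∀ l, P' l (pre x l)) → ∀ Y, Cmp e A Y → delta Y (toSet x) ≤ 1 / 2 := by
  classical
  by_cases hcase : ∃ Y, Cmp e A Y
  swap
  · push Not at hcase
    exact ⟨P, hP, fun _ _ h => h, hpos, fun x _ Y hY => absurd hY (hcase Y)⟩
  obtain ⟨Y, hY⟩ := hcase
  obtain ⟨c, hc⟩ := hpos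
  have hc0 : 0 < c := by
    have := hc c le_rfl
    rcases Nat.eq_zero_or_pos c with rfl | h
    · simp at this
    · exact h
  have hYr := hY.red
  rw [Red_iff] at hYr
  set M := 4 * c with hM
  let P' : ℕ → ℕ → Prop := fun l k => P l k ∧ ∀ m < l + 1, (M ≤ m ∧ bb (m + 1) ≤ l) →
    ¬ bad m (fun i => ch Y (bb m + i)) (fun i => k.testBit (bb m + i))
  refine ⟨P', ?_, fun l k h => h.1, ⟨2 * c, fun s hs => ?_⟩, ?_⟩
  · refine Dec.and hP ?_
    refine Dec.all_lt (S := fun (p : ℕ × ℕ) m => (M ≤ m ∧ bb (m + 1) ≤ p.1) →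
      ¬ bad m (fun i => ch Y (bb m + i)) (fun i => p.2.testBit (bb m + i)))
      (f := fun p => p.1 + 1) (Dec.imp (Dec.and ?_ ?_) (Dec.not ?_)) (by fun_prop)
    · exact Dec.of_cp (RE.cp_le (by fun_prop) (by fun_prop))
    · exact Dec.of_cp (RE.cp_le (by fun_prop) (by fun_prop))
    · refine bad_dec (F := fun (x : (ℕ × ℕ) × ℕ) i => ch Y (bb x.2 + i))
        (G := fun x i => x.1.2.testBit (bb x.2 + i)) (m := fun x => x.2) ?_ ?_ (by fun_prop)
      · have h1 : Dec A fun n : ℕ => n ∈ Y := hYr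
        refine (h1.comp (f := fun x : ((ℕ × ℕ) × ℕ) × ℕ => bb x.1.2 + x.2)
          (by fun_prop)).of_eq fun x => ch_eq_true.symm
      · exact Dec.of_cp (cpdec (f := fun x : ((ℕ × ℕ) × ℕ) × ℕ =>
          x.1.1.2.testBit (bb x.1.2 + x.2)) (by fun_prop))
  · have h1 := hc s (by omega)
    let W : ℕ → ℕ → Prop := fun m j => bb (m + 1) ≤ s ∧
      bad m (fun i => ch Y (bb m + i)) (fun i => j.testBit (bb m + i))
    have h2 : pc s (EE P Q u s) ≤ pc s (EE P' Q u s) +
        pc s (fun j k => (∃ m, M ≤ m ∧ m < s + 1 ∧ W m j) ∧ True) := by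
      refine le_trans (pc_mono fun j _ k _ h => ?_) (pc_or s _ _)
      by_cases h3 : Cyl P' s j
      · exact Or.inl ⟨h3, h.2⟩
      · right
        unfold Cyl at h3
        push Not at h3
        obtain ⟨l, hl, h4⟩ := h3
        have h5 : ¬ ∀ m < l + 1, (M ≤ m ∧ bb (m + 1) ≤ l) →
            ¬ bad m (fun i => ch Y (bb m + i)) (fun i => (j % 2 ^ l).testBit (bb m + i)) :=
          fun h' => h4 ⟨h.1 l hl, h'⟩
        push Not at h5
        obtain ⟨m, hm, ⟨h6, h7⟩, h8⟩ := h5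
        refine ⟨⟨m, h6, by omega, by omega, ?_⟩, trivial⟩
        refine (bad_congr (fun _ _ => rfl) fun i hi => ?_).1 h8
        have h9 : bb m + i < l := by rw [bb_succ] at h7; omega
        rw [Nat.testBit_mod_two_pow]
        simp [h9]
    rw [pc_prod] at h2
    have h3 : cnt s (fun _ => True) = 2 ^ s := by simp [cnt]
    rw [h3] at h2
    have h4 : M * cnt s (fun j => ∃ m, M ≤ m ∧ m < s + 1 ∧ W m j) ≤ 2 * 2 ^ s := by
      refine cnt_union (by positivity) s (s + 1) fun m _ => ?_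
      by_cases h5 : bb (m + 1) ≤ s
      · have h6 : cnt s (W m) = cnt s (fun j => bad m (fun i => ch Y (bb m + i))
            (fun i => j.testBit (bb m + i))) :=
          cnt_congr fun j _ => ⟨fun h => h.2, fun h => ⟨h5, h⟩⟩
        rw [h6, mul_comm]
        exact block_count h5 _
      · have h6 : cnt s (W m) ≤ cnt s (fun _ => False) := cnt_mono fun j _ h => h5 h.1
        have h7 : cnt s (fun _ => False) = 0 := by simp [cnt]
        rw [h7] at h6
        have : cnt s (W m) = 0 := by omega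
        rw [this]
        simp
    set C := cnt s (fun j => ∃ m, M ≤ m ∧ m < s + 1 ∧ W m j)
    have h5 : 4 * (c * (C * 2 ^ s)) ≤ 2 * 4 ^ s := by
      rw [four_pow]
      calc 4 * (c * (C * 2 ^ s)) = M * C * 2 ^ s := by rw [hM]; ring
        _ ≤ 2 * 2 ^ s * 2 ^ s := Nat.mul_le_mul_right _ h4
        _ = 2 * (2 ^ s * 2 ^ s) := by ring
    have h6 : c * pc s (EE P Q u s) ≤ c * pc s (EE P' Q u s) + c * (C * 2 ^ s) := by
      rw [← mul_add]; exact Nat.mul_le_mul_left _ h2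
    calc 4 ^ s ≤ 2 * (c * pc s (EE P' Q u s)) := by omega
      _ = 2 * c * pc s (EE P' Q u s) := by ring
  · intro x hx Y' hY'
    obtain rfl := hY.unique hY'
    refine delta_le_half M fun m hm => ?_
    have h1 := (hx (max m (bb (m + 1)))).2 m (by omega) ⟨hm, le_max_right _ _⟩
    refine fun h2 => h1 ((bad_congr (fun _ _ => rfl) fun i hi => ?_).1 h2)
    have h3 : bb m + i < max m (bb (m + 1)) := by rw [bb_succ]; omega
    rw [pre_testBit]
    have h4 := ch_eq_true (Y := toSet x) (n := bb m + i)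
    have h5 : bb m + i ∈ toSet x ↔ x (bb m + i) = true := Iff.rfl
    rw [h5] at h4
    cases hc : ch (toSet x) (bb m + i) <;> cases hz : x (bb m + i) <;> simp_all

end Pool.Agent.Helper643.DM
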